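import Pool.Agent.EGY.Targets
import Pool.Agent.EGT.Fin

set_option autoImplicit false
open MvPolynomial hiding R

/-!
# Project EGY: the theorem, from the targets
-/

namespace Pool.Agent.EGY

open Pool.Agent.EGU Pool.Agent.EGS Pool.Agent.EGT Pool.Agent.EGX

universe u

/-- The main theorem. -/
theorem final (h_SM5 : T_SM5.{u}) (h_PSG : T_PSG.{u}) (h_SPM : T_SPM.{u}) (h_BCX : T_BCX.{u})
    (h_IDX : T_IDX.{u}) (h_IDY : T_IDY.{u}) (K : Type u) [Field K] (n : ℕ)
    (I : Ideal (MvPolynomial (Fin n) K)) (a : Fin n → ℕ) (f : Fin n → MvPolynomial (Fin n) K)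
    (hm : Monotone a) (h2 : ∀ i, 2 ≤ a i) (hhom : ∀ i, (f i).IsHomogeneous (a i))
    (hfI : ∀ i, f i ∈ I)
    (hreg : RingTheory.Sequence.IsRegular (MvPolynomial (Fin n) K) (List.ofFn f))
    (hc : ∃ (m n0 : ℕ) (e : Fin m ↪o Fin n) (h : n0 ≤ m),
      (∀ i, i ∉ Set.range e →
        Spl (a i) (MvPolynomial.map (algebraMap K (AlgebraicClosure K)) (f i))) ∧
      Small5 (tl (fun x => a (e x)) n0 h) ∧ (n0 = m ∨
      Module.finrank K (MvPolynomial.homogeneousSubmodule (Fin n) K 2) ≤ hI I 2 + 2 * n0 ∨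
      hI I (S a n - 2) ≤ hI (Ideal.span (Set.range f)) (S a n - 2) + 2 * n0)) :
    EGHs a I Set.univ := by
  have hf : CI f a := t_reg K n f a (fun i => le_trans (by norm_num) (h2 i)) hhom hreg
  refine egh_int t_dimr t_sega a_lexn a_hf (t_hf1 t_cir t_jd t_dimr) t_xci K n f a hf I hfI
    Set.univ Set.ordConnected_univ (fun d _ _ => ?_)
  obtain ⟨m, n0, e, h, hs, hk, hc⟩ := hc
  have hme : Monotone (fun x => a (e x)) := fun i j hij => hm (e.monotone hij)
  have hmt : Monotone (tl (fun x => a (e x)) n0 h) := by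
    intro i j hij
    refine hme ?_
    rw [Fin.le_def] at hij ⊢
    show m - n0 + (i : ℕ) ≤ m - n0 + (j : ℕ)
    omega
  have hE : EG (AlgebraicClosure K) (tl (fun x => a (e x)) n0 h) :=
    h_SM5 (AlgebraicClosure K) n0 _ hmt (fun i => h2 _) hk
  have key : ∀ N, (n0 = m ∨ N ≤ 2 * n0) → EF a f N := by
    intro N hN
    refine (h_BCX K (AlgebraicClosure K) n a f hf).2 N ?_
    refine h_SPM (AlgebraicClosure K) n m N a e hm h2 ?_ _
      (h_BCX K (AlgebraicClosure K) n a f hf).1 hs
    intro d
    rcases hN with hN | hN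
    · subst hN
      have h1 : tl (fun x => a (e x)) n0 h = fun x => a (e x) := by
        funext i
        unfold tl
        show a (e _) = a (e _)
        congr 2
        apply Fin.ext
        show n0 - n0 + (i : ℕ) = i
        omega
      rw [h1] at hE
      exact hE d N
    · exact ea_tl h_PSG (AlgebraicClosure K) n0 N hN m h (fun x => a (e x)) hme (fun x => h2 _)
        (fun d => hE d N) d
  rcases hc with hc | hc | hc
  · refine h_IDX K n (Module.finrank K (Rd K n 2)) a hm h2 f hf (key _ (Or.inl hc)) I hfI ?_ d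
    exact Nat.le_add_left _ _
  · exact h_IDX K n (2 * n0) a hm h2 f hf (key _ (Or.inr le_rfl)) I hfI hc d
  · rcases Nat.lt_or_ge (S a n) 2 with hs | hs
    · -- at most one variable
      have hs1 : n ≤ 1 := by
        by_contra hcon
        push Not at hcon
        have h5 := (t_num n a).2.1 0 (by omega)
        have h6 := (t_num n a).2.1 1 (by omega)
        have h7 := (t_num n a).2.2.1 2 n (by omega)
        have h8 := h2 ⟨0, by omega⟩
        have h9 := h2 ⟨1, by omega⟩
        rw [(t_num n a).1] at h5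
        have h10 : S a (1 + 1) = S a 2 := rfl
        have h11 : S a (0 + 1) = S a 1 := rfl
        omega
      have hkn : Small5 a := by
        refine ⟨n, le_rfl, Or.inl (by omega), fun j hj hnj => ?_⟩
        omega
      have hEn : EG (AlgebraicClosure K) a := h_SM5 (AlgebraicClosure K) n a hm h2 hkn
      refine h_IDX K n (Module.finrank K (Rd K n 2)) a hm h2 f hf ?_ I hfI ?_ d
      · exact (h_BCX K (AlgebraicClosure K) n a f hf).2 _
          (fun d W => hEn d _ _ (h_BCX K (AlgebraicClosure K) n a f hf).1 W)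
      · exact Nat.le_add_left _ _
    · exact h_IDY K n (2 * n0) a hm h2 hs f hf (key _ (Or.inr le_rfl)) I hfI hc d

end Pool.Agent.EGY
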