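import Pool.Agent.EGY.Targets

set_option autoImplicit false
open MvPolynomial hiding R

namespace Pool.Agent.EGY

open Pool.Agent.EGU Pool.Agent.EGS Pool.Agent.EGT Pool.Agent.EGX

namespace HF3_

lemma mem_std4 (b d : ℕ) (x : Fin 4 →₀ ℕ) : x ∈ Std (![2, 3, b, b] : Fin 4 → ℕ) d ↔
    x 0 + x 1 + x 2 + x 3 = d ∧ x 0 < 2 ∧ x 1 < 3 ∧ x 2 < b ∧ x 3 < b := by
  unfold Std
  rw [Finset.mem_filter, Finset.mem_finsuppAntidiag]
  constructor
  · rintro ⟨⟨h1, -⟩, h2⟩
    rw [Fin.sum_univ_four] at h1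
    have h20 := h2 0
    have h21 := h2 1
    have h22 := h2 2
    have h23 := h2 3
    simp at h20 h21 h22 h23
    omega
  · rintro ⟨h1, h20, h21, h22, h23⟩
    refine ⟨⟨?_, Finset.subset_univ _⟩, ?_⟩
    · rw [Fin.sum_univ_four]
      exact h1
    · intro i
      fin_cases i <;> simp <;> omega

lemma card_std4 (b d : ℕ) : (Std (![2, 3, b, b] : Fin 4 → ℕ) d).card =
    ((Finset.range 2 ×ˢ Finset.range 3 ×ˢ Finset.range b).filter
      (fun t : ℕ × ℕ × ℕ => t.1 + t.2.1 + t.2.2 ≤ d ∧ d < t.1 + t.2.1 + t.2.2 + b)).card := by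
  refine Finset.card_nbij' (fun x => (x 0, x 1, x 2))
    (fun t => Finsupp.equivFunOnFinite.symm
      (![t.1, t.2.1, t.2.2, d - (t.1 + t.2.1 + t.2.2)] : Fin 4 → ℕ)) ?_ ?_ ?_ ?_
  · intro x hx
    rw [Finset.mem_coe, mem_std4] at hx
    simp only [Finset.coe_filter, Finset.mem_product, Finset.mem_range, Set.mem_ofPred_eq]
    omega
  · rintro ⟨i, j, y⟩ ht
    simp only [Finset.coe_filter, Finset.mem_product, Finset.mem_range, Set.mem_ofPred_eq] at ht
    rw [Finset.mem_coe, mem_std4]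
    simp
    omega
  · intro x hx
    rw [Finset.mem_coe, mem_std4] at hx
    ext i
    fin_cases i <;> simp
    omega
  · rintro ⟨i, j, y⟩ ht
    simp

/-- The number of `y < b` with `s + y ≤ d < s + y + b`. -/
def c (b d s : ℕ) : ℕ := ((Finset.range b).filter (fun y => s + y ≤ d ∧ d < s + y + b)).card

lemma count (b d : ℕ) : (Std (![2, 3, b, b] : Fin 4 → ℕ) d).card =
    ∑ i ∈ Finset.range 2, ∑ j ∈ Finset.range 3, c b d (i + j) := by
  rw [card_std4, Finset.card_filter, Finset.sum_product]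
  refine Finset.sum_congr rfl fun i _ => ?_
  rw [Finset.sum_product]
  refine Finset.sum_congr rfl fun j _ => ?_
  unfold c
  rw [Finset.card_filter]

lemma fib (b d s lo hi : ℕ) (h : ∀ y, (y < b ∧ s + y ≤ d ∧ d < s + y + b) ↔ (lo ≤ y ∧ y < hi)) :
    c b d s = hi - lo := by
  rw [← Nat.card_Ico]
  unfold c
  congr 1
  ext y
  rw [Finset.mem_filter, Finset.mem_range, Finset.mem_Ico]
  exact h y

lemma count2 (b d : ℕ) : (Std (![2, 3, b, b] : Fin 4 → ℕ) d).card =
    c b d 0 + c b d 1 + c b d 2 + (c b d 1 + c b d 2 + c b d 3) := by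
  rw [count]
  simp [Finset.sum_range_succ]

end HF3_

theorem p_HF3 : T_HF3 := by
  intro b hb
  constructor
  · rw [HF3_.count2, HF3_.fib b b 0 1 b (by omega), HF3_.fib b b 1 0 b (by omega),
      HF3_.fib b b 2 0 (b - 1) (by omega), HF3_.fib b b 3 0 (b - 2) (by omega)]
    omega
  · rw [HF3_.count2, HF3_.fib b (b + 1) 0 2 b (by omega), HF3_.fib b (b + 1) 1 1 b (by omega),
      HF3_.fib b (b + 1) 2 0 b (by omega), HF3_.fib b (b + 1) 3 0 (b - 1) (by omega)]
    omega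

end Pool.Agent.EGY
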