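import Pool.Agent.EGY.Targets
import Pool.Agent.EGT.P_PSG

set_option autoImplicit false
open MvPolynomial hiding R

/-!
# Project EGY, target KPR: spaces killed by a product of `k` linear forms
-/

namespace Pool.Agent.EGY

open Pool.Agent.EGU Pool.Agent.EGS Pool.Agent.EGT Pool.Agent.EGX

universe u

namespace KPR_

theorem Sh_mono {n : ℕ} {a : Fin n → ℕ} {d v G G' : ℕ} (h : Sh a d v G) (hG : G ≤ G') :
    Sh a d v G' := by
  obtain ⟨M, h1, h2, h3⟩ := h
  exact ⟨M, h1, h2, h3.trans hG⟩

theorem fin_of_le {K : Type u} [Field K] (k e : ℕ) (U : Submodule K (R K k))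
    (hU : U ≤ Rd K k e) : Module.Finite K U := by
  have := (t_dimr K k e).1
  exact Submodule.finiteDimensional_of_le hU

end KPR_

open KPR_

theorem p_KPR (h_PRL : T_PRL.{u}) (h_TAG : T_TAG.{u}) (h_CMB : T_CMB) : T_KPR.{u} := by
  intro K _ _ n a hm h2 hEG f hf k L hk hL hL0 b i hb hbi hbs d D hD W hJW hWR hkill
  obtain ⟨U, κ, u, hU, hκ, hWκ, hsum⟩ :=
    h_PRL K (n + 1) (n + 1) f a hf.hom k L hL d W hJW hWR hkill
  have hbs' : (fun j => b (i.succAbove j)) = a ∘ Fin.succ := funext hbs
  have claim : ∀ j, j < b i → (D + j + 1 < b i ∧ κ j = 0) ∨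
      ∃ d', d' + (b i - 1) = D + j ∧ Sh (fun j => b (i.succAbove j)) d' (κ j) (u j) := by
    intro j hj
    rw [hbi] at hj ⊢
    obtain ⟨hU1, hU2, ⟨x, hx⟩, hU3, hU4, hU5⟩ := hU j hj
    by_cases hc : d + j + 1 < a 0
    · left
      refine ⟨by omega, ?_⟩
      have hle : U j ≤ Jd f (d + j) := by
        intro p hp
        have h1 : L x * p ∈ J f := hx p hp
        have h3 : L x * p ∈ Rd K (n + 1) (d + j + 1) := by
          have h4 := (mem_homogeneousSubmodule _ _).mp (hL x)
          have h5 := (mem_homogeneousSubmodule _ _).mp (hU2 hp)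
          have h6 := h4.mul h5
          rw [add_comm 1 (d + j)] at h6
          exact (mem_homogeneousSubmodule _ _).mpr h6
        have h7 : Jd f (d + j + 1) = ⊥ := PSG_.jd_low f a hf.hom _ (fun i => by
          have := hm (Fin.zero_le i)
          omega)
        have h9 : L x * p = 0 := by
          have : L x * p ∈ Jd f (d + j + 1) := ⟨h3, h1⟩
          rw [h7] at this
          exact this
        rcases mul_eq_zero.mp h9 with h10 | h10
        · exact absurd h10 (hL0 x)
        · rw [h10]
          exact Submodule.zero_mem _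
      have := fin_of_le _ _ (Jd f (d + j)) inf_le_left
      have := Submodule.finrank_mono hle
      omega
    · right
      obtain ⟨d', hd'⟩ : ∃ d', d' + (a 0 - 1) = d + j := ⟨d + j - (a 0 - 1), by omega⟩
      have ha0 := h2 0
      refine ⟨d', by omega, ?_⟩
      rw [← hd'] at hU1 hU2 hU4 hU5
      have h1 := h_TAG K n d' (Module.finrank K (Rd K (n + 1) 2)) a hm (hEG d' _) f hf (U j)
        hU1 hU2 (L x) (hL x) (hL0 x) hx (Nat.le_add_left _ _)
      rw [hbs']
      have ev : Module.finrank K (U j) - Module.finrank K (Jd f (d' + (a 0 - 1))) = κ j := by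
        omega
      rw [ev] at h1
      exact Sh_mono h1 (by omega)
  have hb1 : ∀ x, 1 ≤ b x := by
    intro x
    rcases Fin.eq_self_or_eq_succAbove i x with h | ⟨y, h⟩
    · rw [h, hbi]
      exact hk
    · rw [h, hbs]
      exact le_trans (by norm_num) (h2 _)
  have hS := h_CMB n b i hb hb1 D κ u (by rw [hbi]; exact hκ) claim
  rw [hbi] at hS
  have ev : Module.finrank K W - Module.finrank K (Jd f d) =
      ∑ j ∈ Finset.range k, κ j := by omega
  rw [ev]
  exact Sh_mono hS (by omega)

end Pool.Agent.EGY
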