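import Pool.Agent.EGY.Targets
import Pool.Agent.EGS.P_PRD

set_option autoImplicit false
open MvPolynomial hiding R

/-!
# KRD: a product of `k` linear forms in a subspace of small codimension (EGY project)
-/

namespace Pool.Agent.EGY

open Pool.Agent.EGU Pool.Agent.EGS Pool.Agent.EGT Pool.Agent.EGX

universe u

namespace KRD_

variable {K : Type u} [Field K] {n : ℕ}

lemma prod_eq {k : ℕ} (x : Fin k → Fin n → K) :
    ∏ i, PRD_.lin (x i) =
      ∑ φ : Fin k → Fin n, (∏ i, x i (φ i)) • ∏ i, (X (φ i) : R K n) := by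
  unfold PRD_.lin
  rw [Finset.prod_univ_sum, Fintype.piFinset_univ]
  refine Finset.sum_congr rfl fun φ _ => ?_
  rw [Finset.prod_smul]

lemma prod_mem {k : ℕ} (L : Fin k → R K n) (hL : ∀ i, L i ∈ Rd K n 1) :
    ∏ i, L i ∈ Rd K n k := by
  have h := MvPolynomial.IsHomogeneous.prod (Finset.univ : Finset (Fin k)) L (fun _ => 1)
    (fun i _ => hL i)
  simpa using h

end KRD_

open KRD_ in
theorem p_KRD (h_MLN : T_MLN.{u}) (h_MLC : T_MLC.{u}) : T_KRD.{u} := by
  intro K _ _ n k Q hQ hN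
  classical
  have hfin : Module.Finite K (Rd K (n + 1) k) := (t_dimr K (n + 1) k).1
  let V : Submodule K (Rd K (n + 1) k) := Q.comap (Rd K (n + 1) k).subtype
  have hV : Module.finrank K V = Module.finrank K Q :=
    LinearEquiv.finrank_eq (Submodule.comapSubtypeEquivOfLe hQ)
  have hq := Submodule.finrank_quotient_add_finrank V
  let c := Module.finrank K (Rd K (n + 1) k ⧸ V)
  have hc : c ≤ k * n := by
    have : c + Module.finrank K V = Module.finrank K (Rd K (n + 1) k) := hq
    omega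
  let B : Module.Basis (Fin c) K (Rd K (n + 1) k ⧸ V) := Module.finBasis K _
  have hXX : ∀ φ : Fin k → Fin (n + 1), ∏ i, (X (φ i) : R K (n + 1)) ∈ Rd K (n + 1) k :=
    fun φ => prod_mem _ fun i => isHomogeneous_X K (φ i)
  let b : (Fin k → Fin (n + 1)) → Fin c → K := fun φ t =>
    B.repr (V.mkQ ⟨∏ i, (X (φ i) : R K (n + 1)), hXX φ⟩) t
  by_contra hcon
  push Not at hcon
  have h1 : ∀ x : Fin k → Fin (n + 1) → K,
      (∀ t, ∑ φ : Fin k → Fin (n + 1), b φ t * ∏ i, x i (φ i) = 0) → ∃ i, x i = 0 := by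
    intro x h
    by_contra h2
    push Not at h2
    refine hcon (fun i => PRD_.lin (x i)) (fun i => PRD_.lin_mem (x i))
      (fun i => PRD_.lin_ne (x i) (h2 i)) ?_
    have h3 : ∏ i, PRD_.lin (x i) ∈ Rd K (n + 1) k := prod_mem _ fun i => PRD_.lin_mem (x i)
    have h4 : (⟨∏ i, PRD_.lin (x i), h3⟩ : Rd K (n + 1) k) =
        ∑ φ : Fin k → Fin (n + 1), (∏ i, x i (φ i)) •
          (⟨∏ i, (X (φ i) : R K (n + 1)), hXX φ⟩ : Rd K (n + 1) k) := by
      apply Subtype.ext
      refine (prod_eq x).trans ?_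
      simp
    have h5 : V.mkQ ⟨∏ i, PRD_.lin (x i), h3⟩ = 0 := by
      apply B.repr.injective
      rw [map_zero]
      ext t
      rw [h4]
      simp only [map_sum, map_smul, Finsupp.coe_finsetSum, Finset.sum_apply, Finsupp.smul_apply,
        smul_eq_mul, Finsupp.zero_apply]
      rw [← h t]
      refine Finset.sum_congr rfl fun φ _ => ?_
      exact mul_comm _ _
    rw [Submodule.mkQ_apply, Submodule.Quotient.mk_eq_zero] at h5
    exact h5
  obtain ⟨N, hN2⟩ := h_MLN K k (n + 1) c b h1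
  have h2 := h_MLC K k (n + 1) c N b (by omega) hN2
  rw [Nat.add_sub_cancel] at h2
  omega

end Pool.Agent.EGY
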