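import Pool.Agent.EGY.Targets
import Pool.Agent.EGU.P_SEGA

set_option autoImplicit false
open MvPolynomial hiding R

/-!
# LX3: lex segments of `(3, b, b, b)` and `(2, 3, b, b)` (EGY project)
-/

namespace Pool.Agent.EGY

open Pool.Agent.EGU Pool.Agent.EGS Pool.Agent.EGT Pool.Agent.EGX

universe u

namespace LX3_

/-- The exponent vector with the entries `p, q, r, s`. -/
noncomputable def q4 (p q r s : ℕ) : Fin 4 →₀ ℕ := Finsupp.equivFunOnFinite.symm ![p, q, r, s]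

@[simp] lemma q4_0 (p q r s : ℕ) : q4 p q r s 0 = p := rfl
@[simp] lemma q4_1 (p q r s : ℕ) : q4 p q r s 1 = q := rfl
@[simp] lemma q4_2 (p q r s : ℕ) : q4 p q r s 2 = r := rfl
@[simp] lemma q4_3 (p q r s : ℕ) : q4 p q r s 3 = s := rfl

lemma ext4 {x y : Fin 4 →₀ ℕ} (h0 : x 0 = y 0) (h1 : x 1 = y 1) (h2 : x 2 = y 2)
    (h3 : x 3 = y 3) : x = y := by
  ext i
  fin_cases i
  · exact h0
  · exact h1
  · exact h2
  · exact h3

lemma le4 {x y : Fin 4 →₀ ℕ} : x ≤ y ↔ x 0 ≤ y 0 ∧ x 1 ≤ y 1 ∧ x 2 ≤ y 2 ∧ x 3 ≤ y 3 := by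
  constructor
  · intro h
    exact ⟨h 0, h 1, h 2, h 3⟩
  · rintro ⟨h0, h1, h2, h3⟩ i
    fin_cases i
    · exact h0
    · exact h1
    · exact h2
    · exact h3

lemma mem4 {α β γ δ d : ℕ} {x : Fin 4 →₀ ℕ} : x ∈ Std (![α, β, γ, δ] : Fin 4 → ℕ) d ↔
    x 0 + x 1 + x 2 + x 3 = d ∧ x 0 < α ∧ x 1 < β ∧ x 2 < γ ∧ x 3 < δ := by
  unfold Std
  rw [Finset.mem_filter, Finset.mem_finsuppAntidiag]
  simp only [Fin.sum_univ_four, Finset.subset_univ, and_true]
  constructor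
  · rintro ⟨h, h1⟩
    exact ⟨h, h1 0, h1 1, h1 2, h1 3⟩
  · rintro ⟨h, h0, h1, h2, h3⟩
    refine ⟨h, fun i => ?_⟩
    fin_cases i
    · exact h0
    · exact h1
    · exact h2
    · exact h3

/-- The large elements of `Std ![3, b, b, b] (2 b - 2)`. -/
noncomputable def FF (b : ℕ) : Finset (Fin 4 →₀ ℕ) :=
  (Std (![3, b, b, b] : Fin 4 → ℕ) (2 * b - 2)).filter fun x => x 0 = 2 ∧ b - 3 ≤ x 1

lemma mem_FF {b : ℕ} (hb : 3 ≤ b) {x : Fin 4 →₀ ℕ} : x ∈ FF b ↔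
    x 0 = 2 ∧ x 1 + x 2 + x 3 = 2 * b - 4 ∧ b - 3 ≤ x 1 ∧ x 1 < b ∧ x 2 < b ∧ x 3 < b := by
  unfold FF
  rw [Finset.mem_filter, mem4]
  omega

lemma seg_FF {b : ℕ} (hb : 3 ≤ b) : IsSeg (![3, b, b, b] : Fin 4 → ℕ) (2 * b - 2) (FF b) := by
  refine ⟨Finset.filter_subset _ _, fun x hx y hy hxy => ?_⟩
  rw [mem_FF hb] at hx ⊢
  rw [mem4] at hy
  obtain ⟨j, hj, hj2⟩ := hxy
  have hc : j = 0 ∨ j = 1 ∨ j = 2 ∨ j = 3 := by
    fin_cases j <;> simp
  rcases hc with rfl | rfl | rfl | rfl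
  · omega
  · have h0 := hj 0 (by decide)
    omega
  · have h0 := hj 0 (by decide)
    have h1 := hj 1 (by decide)
    omega
  · have h0 := hj 0 (by decide)
    have h1 := hj 1 (by decide)
    omega

/-- Number of an element of `FF b`. -/
def ix (b : ℕ) (x : Fin 4 →₀ ℕ) : ℕ :=
  if x 1 + 1 = b then x 3 else if x 1 + 2 = b then (b - 2) + x 3 else (2 * b - 3) + x 3

/-- The element of `FF b` with the number `i`. -/
noncomputable def el (b i : ℕ) : Fin 4 →₀ ℕ :=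
  if i < b - 2 then q4 2 (b - 1) (b - 3 - i) i else
    if i < 2 * b - 3 then q4 2 (b - 2) (b - 2 - (i - (b - 2))) (i - (b - 2)) else
      q4 2 (b - 3) (b - 1 - (i - (2 * b - 3))) (i - (2 * b - 3))

lemma card_FF {b : ℕ} (hb : 3 ≤ b) : (FF b).card = 3 * b - 3 := by
  rw [← Finset.card_range (3 * b - 3)]
  refine Finset.card_nbij' (ix b) (el b) ?_ ?_ ?_ ?_
  · intro x hx
    rw [Finset.mem_coe, mem_FF hb] at hx
    rw [Finset.mem_coe, Finset.mem_range]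
    unfold ix
    split_ifs <;> omega
  · intro i hi
    rw [Finset.mem_coe, Finset.mem_range] at hi
    rw [Finset.mem_coe, mem_FF hb]
    unfold el
    split_ifs <;> refine ⟨?_, ?_, ?_, ?_, ?_, ?_⟩ <;> simp only [q4_0, q4_1, q4_2, q4_3] <;> omega
  · intro x hx
    rw [Finset.mem_coe, mem_FF hb] at hx
    unfold ix el
    split_ifs <;> apply ext4 <;> simp only [q4_0, q4_1, q4_2, q4_3] <;> omega
  · intro i hi
    rw [Finset.mem_coe, Finset.mem_range] at hi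
    unfold ix el
    split_ifs <;> simp only [q4_1, q4_3] at * <;> omega

lemma el_mem {b : ℕ} (hb : 3 ≤ b) {i : ℕ} (hi : i < 3 * b - 3) : el b i ∈ FF b := by
  rw [mem_FF hb]
  unfold el
  split_ifs <;> refine ⟨?_, ?_, ?_, ?_, ?_, ?_⟩ <;> simp only [q4_0, q4_1, q4_2, q4_3] <;> omega

lemma ix_el {b : ℕ} (hb : 3 ≤ b) (i : ℕ) : ix b (el b i) = i := by
  unfold ix el
  split_ifs <;> simp only [q4_1, q4_3] at * <;> omega

lemma sh_of {a : Fin 4 → ℕ} (hCL : CL a) {d v u : ℕ} {F : Finset (Fin 4 →₀ ℕ)}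
    (hF : F ⊆ Std a d) (hv : v ≤ F.card) (hu : (shadow a d F).card ≤ u) : Sh a d v u := by
  obtain ⟨M, hM, hc⟩ := (t_sega 4 a d).2.2.2.1 v (hv.trans (Finset.card_le_card hF))
  exact ⟨M, hM, hc, (hCL d F M hF hM (by omega)).trans hu⟩

lemma mem_sh {a : Fin 4 → ℕ} {d : ℕ} {M : Finset (Fin 4 →₀ ℕ)} {x : Fin 4 →₀ ℕ} :
    x ∈ shadow a d M ↔ x ∈ Std a (d + 1) ∧ ∃ y ∈ M, y ≤ x := Finset.mem_filter

/-- The translation to the degrees `(2, 3, b, b)`. -/
noncomputable def ta (b : ℕ) (x : Fin 4 →₀ ℕ) : Fin 4 →₀ ℕ := q4 1 (x 1 - (b - 3)) (x 2) (x 3)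

lemma ta_inj {b : ℕ} (hb : 3 ≤ b) : Set.InjOn (ta b) (FF b : Set (Fin 4 →₀ ℕ)) := by
  intro x hx y hy h
  rw [Finset.mem_coe, mem_FF hb] at hx hy
  have h1 := DFunLike.congr_fun h 1
  have h2 := DFunLike.congr_fun h 2
  have h3 := DFunLike.congr_fun h 3
  simp only [ta, q4_1, q4_2, q4_3] at h1 h2 h3
  apply ext4 <;> omega

lemma ta_std {b : ℕ} (hb : 3 ≤ b) {x : Fin 4 →₀ ℕ} (hx : x ∈ FF b) :
    ta b x ∈ Std (![2, 3, b, b] : Fin 4 → ℕ) b := by
  rw [mem_FF hb] at hx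
  rw [mem4]
  simp only [ta, q4_0, q4_1, q4_2, q4_3]
  omega

lemma part1 {b : ℕ} (hb : 3 ≤ b) (hCL : CL (![2, 3, b, b] : Fin 4 → ℕ)) (v u : ℕ)
    (hv : v ≤ 3 * b - 3) (h : Sh (![3, b, b, b] : Fin 4 → ℕ) (2 * b - 2) v u) :
    Sh (![2, 3, b, b] : Fin 4 → ℕ) b v u := by
  classical
  obtain ⟨M, hM, hc, hu⟩ := h
  have hMF : M ⊆ FF b := (t_sega 4 _ _).2.2.2.2 M (FF b) hM (seg_FF hb) (by
    rw [card_FF hb, hc]; exact hv)
  refine sh_of hCL (F := M.image (ta b)) ?_ ?_ ?_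
  · intro x hx
    obtain ⟨y, hy, rfl⟩ := Finset.mem_image.mp hx
    exact ta_std hb (hMF hy)
  · rw [Finset.card_image_of_injOn ((ta_inj hb).mono (Finset.coe_subset.mpr hMF)), hc]
  · refine le_trans ?_ hu
    refine Finset.card_le_card_of_injOn (fun w => q4 2 (w 1 + (b - 3)) (w 2) (w 3)) ?_ ?_
    · intro w hw
      obtain ⟨hw1, y, hy, hyw⟩ := mem_sh.mp hw
      obtain ⟨x, hx, rfl⟩ := Finset.mem_image.mp hy
      have hxF := hMF hx
      rw [mem_FF hb] at hxF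
      rw [mem4] at hw1
      rw [le4] at hyw
      simp only [ta, q4_0, q4_1, q4_2, q4_3] at hyw
      refine mem_sh.mpr ⟨?_, x, hx, ?_⟩
      · rw [mem4]
        simp only [q4_0, q4_1, q4_2, q4_3]
        omega
      · rw [le4]
        simp only [q4_0, q4_1, q4_2, q4_3]
        omega
    · intro w hw w' hw' h
      have key : ∀ z : Fin 4 →₀ ℕ, z ∈ (shadow (![2, 3, b, b] : Fin 4 → ℕ) b
          (M.image (ta b)) : Set (Fin 4 →₀ ℕ)) → z 0 = 1 := by
        intro z hz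
        obtain ⟨hz1, y, hy, hyz⟩ := mem_sh.mp hz
        obtain ⟨x, hx, rfl⟩ := Finset.mem_image.mp hy
        rw [mem4] at hz1
        rw [le4] at hyz
        simp only [ta, q4_0] at hyz
        omega
      have h0 := key w hw
      have h0' := key w' hw'
      have h1 := DFunLike.congr_fun h 1
      have h2 := DFunLike.congr_fun h 2
      have h3 := DFunLike.congr_fun h 3
      simp only [q4_1, q4_2, q4_3] at h1 h2 h3
      apply ext4 <;> omega

/-- Number of an element of the shadow. -/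
def iy (b : ℕ) (w : Fin 4 →₀ ℕ) : ℕ :=
  if w 1 = 2 then w 3 else if w 1 = 1 then (b - 1) + w 3 else (2 * b - 2) + w 3

lemma part2 {b : ℕ} (hb : 3 ≤ b) (hCL : CL (![2, 3, b, b] : Fin 4 → ℕ)) (v : ℕ)
    (hv : v ≤ 3 * b - 3) : Sh (![2, 3, b, b] : Fin 4 → ℕ) b v (v + 2) := by
  classical
  have hel : ∀ i, i < v → el b i ∈ FF b := fun i hi => el_mem hb (by omega)
  refine sh_of hCL (F := (Finset.range v).image (fun i => ta b (el b i))) ?_ ?_ ?_
  · intro x hx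
    obtain ⟨i, hi, rfl⟩ := Finset.mem_image.mp hx
    exact ta_std hb (hel i (Finset.mem_range.mp hi))
  · rw [Finset.card_image_of_injOn, Finset.card_range]
    intro i hi j hj h
    rw [Finset.mem_coe, Finset.mem_range] at hi hj
    have h1 := ta_inj hb (hel i hi) (hel j hj) h
    rw [← ix_el hb i, h1, ix_el hb j]
  · rw [← Finset.card_range (v + 2)]
    have key : ∀ w, w ∈ shadow (![2, 3, b, b] : Fin 4 → ℕ) b
        ((Finset.range v).image (fun i => ta b (el b i))) →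
        w 0 = 1 ∧ w 1 + w 2 + w 3 = b ∧ w 1 < 3 ∧ w 2 < b ∧ w 3 < b ∧ iy b w < v + 2 := by
      intro w hw
      obtain ⟨hw1, y, hy, hyw⟩ := mem_sh.mp hw
      obtain ⟨i, hi, rfl⟩ := Finset.mem_image.mp hy
      rw [Finset.mem_range] at hi
      rw [mem4] at hw1
      rw [le4] at hyw
      simp only [ta, q4_0, q4_1, q4_2, q4_3] at hyw
      have h0 : w 0 = 1 := by omega
      refine ⟨h0, by omega, by omega, by omega, by omega, ?_⟩
      unfold el at hyw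
      unfold iy
      split_ifs at hyw ⊢ <;> simp only [q4_1, q4_2, q4_3] at hyw <;> omega
    refine Finset.card_le_card_of_injOn (iy b) ?_ ?_
    · intro w hw
      rw [Finset.mem_coe, Finset.mem_range]
      exact (key w hw).2.2.2.2.2
    · intro w hw w' hw' h
      have k1 := key w hw
      have k2 := key w' hw'
      unfold iy at h
      split_ifs at h <;> apply ext4 <;> omega

/-- The elements of the shadow of `FF b`. -/
noncomputable def eg (b i : ℕ) : Fin 4 →₀ ℕ :=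
  if i < b - 1 then q4 2 (b - 1) (b - 2 - i) i else
    if i < 2 * b - 1 then q4 2 (b - 2) (b - 1 - (i - (b - 1))) (i - (b - 1)) else
      q4 2 (b - 3) (b - (i - (2 * b - 1) + 1)) (i - (2 * b - 1) + 1)

lemma part3 {b : ℕ} (hb : 3 ≤ b) (v u : ℕ) (hv : 3 * b - 3 ≤ v)
    (h : Sh (![3, b, b, b] : Fin 4 → ℕ) (2 * b - 2) v u) : 3 * b - 2 ≤ u := by
  obtain ⟨M, hM, hc, hu⟩ := h
  have hMF : FF b ⊆ M := (t_sega 4 _ _).2.2.2.2 (FF b) M (seg_FF hb) hM (by
    rw [card_FF hb, hc]; exact hv)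
  refine le_trans ?_ hu
  rw [← Finset.card_range (3 * b - 2)]
  have key : ∀ i, i < 3 * b - 2 → eg b i 0 = 2 ∧ eg b i 1 + eg b i 2 + eg b i 3 = 2 * b - 3 ∧
      b - 3 ≤ eg b i 1 ∧ eg b i 1 < b ∧ eg b i 2 < b ∧ eg b i 3 < b := by
    intro i hi
    unfold eg
    split_ifs <;> refine ⟨?_, ?_, ?_, ?_, ?_, ?_⟩ <;> simp only [q4_0, q4_1, q4_2, q4_3] <;> omega
  refine Finset.card_le_card_of_injOn (eg b) ?_ ?_
  · intro i hi
    rw [Finset.mem_coe, Finset.mem_range] at hi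
    obtain ⟨k0, k1, k2, k3, k4, k5⟩ := key i hi
    refine mem_sh.mpr ⟨?_, ?_⟩
    · rw [mem4]
      omega
    · by_cases hz : 1 ≤ eg b i 2
      · refine ⟨q4 2 (eg b i 1) (eg b i 2 - 1) (eg b i 3), hMF ?_, ?_⟩
        · rw [mem_FF hb]
          refine ⟨rfl, ?_, ?_, ?_, ?_, ?_⟩ <;> simp only [q4_1, q4_2, q4_3] <;> omega
        · rw [le4]
          simp only [q4_0, q4_1, q4_2, q4_3]
          omega
      · refine ⟨q4 2 (eg b i 1) (eg b i 2) (eg b i 3 - 1), hMF ?_, ?_⟩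
        · rw [mem_FF hb]
          refine ⟨rfl, ?_, ?_, ?_, ?_, ?_⟩ <;> simp only [q4_1, q4_2, q4_3] <;> omega
        · rw [le4]
          simp only [q4_0, q4_1, q4_2, q4_3]
          omega
  · intro i hi j hj h
    rw [Finset.mem_coe, Finset.mem_range] at hi hj
    have h1 := DFunLike.congr_fun h 1
    have h3 := DFunLike.congr_fun h 3
    unfold eg at h1 h3
    split_ifs at h1 h3 <;> simp only [q4_1, q4_3] at h1 h3 <;> omega

end LX3_

open LX3_ in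
theorem p_LX3 (h_CLT : T_CLT) : T_LX3 := by
  intro b hb
  have hCL : CL (![2, 3, b, b] : Fin 4 → ℕ) := by
    refine h_CLT 4 _ (Fin.monotone_iff_le_succ.mpr fun i => ?_)
    fin_cases i
    · change 2 ≤ 3
      omega
    · change 3 ≤ b
      exact hb
    · change b ≤ b
      exact le_rfl
  exact ⟨fun v u hv h => part1 hb hCL v u hv h, fun v hv => part2 hb hCL v hv,
    fun v u hv h => part3 hb v u hv h⟩

end Pool.Agent.EGY
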