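import Pool.Agent.EGY.Targets
import Pool.Agent.EGS.P_DUA
import Pool.Agent.EGS.P_SOK

set_option autoImplicit false
open MvPolynomial hiding R

/-!
# Project EGY, target MID: the middle degree of the sequence 2, 3, b, b
-/

namespace Pool.Agent.EGY

open Pool.Agent.EGU Pool.Agent.EGS Pool.Agent.EGT Pool.Agent.EGX

universe u

namespace MID_

theorem mono4 {b : ℕ} (hb : 3 ≤ b) : Monotone (![2, 3, b, b] : Fin 4 → ℕ) := by
  intro i j hij
  fin_cases i <;> fin_cases j <;> simp_all <;> omega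

theorem mono4' {b : ℕ} (hb : 3 ≤ b) : Monotone (![3, b, b, b] : Fin 4 → ℕ) := by
  intro i j hij
  fin_cases i <;> fin_cases j <;> simp_all

theorem two4 {b : ℕ} (hb : 3 ≤ b) : ∀ i, 2 ≤ (![2, 3, b, b] : Fin 4 → ℕ) i := by
  intro i
  fin_cases i <;> simp <;> omega

theorem S4 {b : ℕ} (hb : 3 ≤ b) : S (![2, 3, b, b] : Fin 4 → ℕ) 4 = b + b + 1 := by
  set a : Fin 4 → ℕ := ![2, 3, b, b] with ha
  have e0 := (t_num 4 a).1
  have e1 : S a 1 = S a 0 + (a 0 - 1) := (t_num 4 a).2.1 0 (by norm_num)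
  have e2 : S a 2 = S a 1 + (a 1 - 1) := (t_num 4 a).2.1 1 (by norm_num)
  have e3 : S a 3 = S a 2 + (a 2 - 1) := (t_num 4 a).2.1 2 (by norm_num)
  have e4 : S a 4 = S a 3 + (a 3 - 1) := (t_num 4 a).2.1 3 (by norm_num)
  have f0 : a 0 = 2 := rfl
  have f1 : a 1 = 3 := rfl
  have f2 : a 2 = b := rfl
  have f3 : a 3 = b := rfl
  omega

/-- Numbers of the linked space. -/
theorem nums (h_HF3 : T_HF3) {K : Type u} [Field K] {b : ℕ} (hb : 3 ≤ b)
    {f : Fin 4 → R K 4} (hf : CI f (![2, 3, b, b] : Fin 4 → ℕ)) (W : Submodule K (R K 4))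
    (h1 : Jd f b ≤ W) (h2 : W ≤ Rd K 4 b) :
    Jd f b ≤ orth f b (up f b W) ∧ orth f b (up f b W) ≤ Rd K 4 b ∧
    Module.finrank K (orth f b (up f b W)) + Module.finrank K (up f b W) =
      Module.finrank K (Jd f b) + Module.finrank K (Rd K 4 (b + 1)) ∧
    Module.finrank K (up f b (orth f b (up f b W))) + Module.finrank K W ≤
      Module.finrank K (Jd f (b + 1)) + Module.finrank K (Rd K 4 b) ∧
    Module.finrank K (Jd f b) + (6 * b - 5) = Module.finrank K (Rd K 4 b) ∧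
    Module.finrank K (Jd f (b + 1)) + (6 * b - 5) = Module.finrank K (Rd K 4 (b + 1)) ∧
    Module.finrank K (Jd f b) ≤ Module.finrank K W ∧
    Module.finrank K W ≤ Module.finrank K (Rd K 4 b) ∧
    Module.finrank K (Jd f (b + 1)) ≤ Module.finrank K (up f b W) ∧
    Module.finrank K (up f b W) ≤ Module.finrank K (Rd K 4 (b + 1)) := by
  have hm := mono4 hb
  have hS := S4 hb
  obtain ⟨w1, w2, w3, w4⟩ := p_DUA K 4 f _ hf hm b b (by omega) W h1 h2
  obtain ⟨c1, c2⟩ := h_HF3 b hb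
  have e1 := a_hf K 4 f _ hf b
  have e2 := a_hf K 4 f _ hf (b + 1)
  have hup := t_upl K 4 4 f _ hf.hom b W h2
  have f0 : Module.Finite K W := fin_le t_dimr h2
  have f1 : Module.Finite K (Rd K 4 b) := (t_dimr K 4 b).1
  have f2 : Module.Finite K (Rd K 4 (b + 1)) := (t_dimr K 4 (b + 1)).1
  have f3 : Module.Finite K (up f b W) := fin_le t_dimr hup.2.1
  refine ⟨w1, w2, w3, w4, by omega, by omega, Submodule.finrank_mono h1,
    Submodule.finrank_mono h2, Submodule.finrank_mono hup.1, Submodule.finrank_mono hup.2.1⟩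

/-- If `p` of degree `2 b` is killed by all variables then it is in `J f`. -/
theorem orth_le {K : Type u} [Field K] {b : ℕ} (hb : 3 ≤ b)
    {f : Fin 4 → R K 4} (hf : CI f (![2, 3, b, b] : Fin 4 → ℕ)) (W : Submodule K (R K 4))
    (h2 : W ≤ Rd K 4 b) : orth f b (up f b W) ≤ orth f b W := by
  rintro h ⟨hh, hh'⟩
  refine ⟨hh, fun w hw => ?_⟩
  have hdeg : h * w ∈ Rd K 4 (b + b) := by
    have hw2 := h2 hw
    rw [mem_homogeneousSubmodule] at hh hw2 ⊢
    exact hh.mul hw2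
  refine (p_SOK K 4 f _ hf (mono4 hb)).1 1 (b + b) (by rw [S4 hb]) _ hdeg ?_
  intro l hl
  have h1 : l * w ∈ up f b W :=
    (le_sup_left : Rd K 4 1 * W ≤ up f b W) (Submodule.mul_mem_mul hl hw)
  have h3 := hh' _ h1
  have h4 : l * (h * w) = h * (l * w) := by ring
  rw [h4]
  exact h3

theorem star (h_KRD : T_KRD.{u}) (h_KPR : T_KPR.{u}) (h_HF3 : T_HF3) (h_KNW : T_KNW.{u})
    {K : Type u} [Field K] [IsAlgClosed K] {b : ℕ} (hb : 3 ≤ b)
    {f : Fin 4 → R K 4} (hf : CI f (![2, 3, b, b] : Fin 4 → ℕ)) (W : Submodule K (R K 4))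
    (h1 : Jd f b ≤ W) (h2 : W ≤ Rd K 4 b)
    (hu : Module.finrank K (up f b W) - Module.finrank K (Jd f (b + 1)) ≤ 3 * b) :
    Sh (![3, b, b, b] : Fin 4 → ℕ) (2 * b - 2)
      (Module.finrank K W - Module.finrank K (Jd f b))
      (Module.finrank K (up f b W) - Module.finrank K (Jd f (b + 1))) := by
  have hinf : Infinite K := inferInstance
  obtain ⟨w1, w2, w3, w4, n1, n2, n3, n4, n5, n6⟩ := nums h_HF3 hb hf W h1 h2
  have hQ : orth f b W ≤ Rd K 4 b := fun p hp => hp.1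
  have fQ : Module.Finite K (orth f b W) := fin_le t_dimr hQ
  have hle := Submodule.finrank_mono (orth_le hb hf W h2)
  have key : Module.finrank K (Rd K 4 b) ≤ Module.finrank K (orth f b W) + b * 3 := by omega
  obtain ⟨L, L1, L0, LQ⟩ := h_KRD K 3 b (orth f b W) hQ key
  have hEG : EG K ((![2, 3, b, b] : Fin 4 → ℕ) ∘ Fin.succ) :=
    h_KNW K 3 _ (fun i j hij => mono4 hb (Fin.succ_le_succ_iff.2 hij)) (fun i => two4 hb _)
      ⟨3, le_rfl, Or.inl le_rfl, fun j hj h3 => absurd hj (by omega)⟩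
  refine h_KPR K 3 (![2, 3, b, b] : Fin 4 → ℕ) (mono4 hb) (two4 hb) hEG f hf b L (by omega) L1 L0
    (![3, b, b, b] : Fin 4 → ℕ) 1 (mono4' hb) rfl ?_ b (2 * b - 2) ?_ W h1 h2 ?_
  · intro j
    fin_cases j <;> rfl
  · change 2 * b - 2 + 2 = b + b
    omega
  · exact fun w hw => LQ.2 w hw

theorem core (h_KRD : T_KRD.{u}) (h_KPR : T_KPR.{u}) (h_LX3 : T_LX3) (h_HF3 : T_HF3)
    (h_KNW : T_KNW.{u}) {K : Type u} [Field K] [IsAlgClosed K] {b : ℕ} (hb : 3 ≤ b)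
    {f : Fin 4 → R K 4} (hf : CI f (![2, 3, b, b] : Fin 4 → ℕ)) (W : Submodule K (R K 4))
    (h1 : Jd f b ≤ W) (h2 : W ≤ Rd K 4 b)
    (hu : Module.finrank K (up f b W) - Module.finrank K (Jd f (b + 1)) ≤ 3 * b)
    (hv : Module.finrank K W - Module.finrank K (Jd f b) ≤ 3 * b - 3) :
    GoodA (![2, 3, b, b] : Fin 4 → ℕ) f b W :=
  (h_LX3 b hb).1 _ _ hv (star h_KRD h_KPR h_HF3 h_KNW hb hf W h1 h2 hu)

theorem main (h_KRD : T_KRD.{u}) (h_KPR : T_KPR.{u}) (h_LX3 : T_LX3) (h_HF3 : T_HF3)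
    (h_KNW : T_KNW.{u}) (h_VTW : T_VTW.{u}) {K : Type u} [Field K] [IsAlgClosed K] {b : ℕ}
    (hb : 3 ≤ b) {f : Fin 4 → R K 4} (hf : CI f (![2, 3, b, b] : Fin 4 → ℕ))
    (W : Submodule K (R K 4)) (h1 : Jd f b ≤ W) (h2 : W ≤ Rd K 4 b) :
    GoodA (![2, 3, b, b] : Fin 4 → ℕ) f b W := by
  obtain ⟨w1, w2, w3, w4, n1, n2, n3, n4, n5, n6⟩ := nums h_HF3 hb hf W h1 h2
  have hS := S4 hb
  have hdual : Module.finrank K (up f b (orth f b (up f b W))) -
      Module.finrank K (Jd f (b + 1)) ≤ 3 * b →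
      Module.finrank K (orth f b (up f b W)) - Module.finrank K (Jd f b) ≤ 3 * b - 3 →
      GoodA (![2, 3, b, b] : Fin 4 → ℕ) f b W := fun hu hv =>
    (h_VTW K 4 f _ hf (mono4 hb) (two4 hb) b W h1 h2).2.2 b (by omega)
      (core h_KRD h_KPR h_LX3 h_HF3 h_KNW hb hf _ w1 w2 hu hv)
  rcases Nat.lt_or_ge (3 * b)
    (Module.finrank K (up f b W) - Module.finrank K (Jd f (b + 1))) with hu | hu
  · rcases Nat.lt_or_ge (3 * b - 6)
      (Module.finrank K W - Module.finrank K (Jd f b)) with hv | hv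
    · exact hdual (by omega) (by omega)
    · obtain ⟨M, m1, m2, m3⟩ := (h_LX3 b hb).2.1 _
        (show Module.finrank K W - Module.finrank K (Jd f b) ≤ 3 * b - 3 by omega)
      have h5 : Module.finrank K W - Module.finrank K (Jd f b) + 2 ≤
          Module.finrank K (up f b W) - Module.finrank K (Jd f (b + 1)) := by omega
      exact ⟨M, m1, m2, m3.trans h5⟩
  · rcases Nat.lt_or_ge (3 * b - 3)
      (Module.finrank K W - Module.finrank K (Jd f b)) with hv | hv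
    · have h3 := (h_LX3 b hb).2.2 _ _ (by omega)
        (star h_KRD h_KPR h_HF3 h_KNW hb hf W h1 h2 hu)
      exact hdual (by omega) (by omega)
    · exact core h_KRD h_KPR h_LX3 h_HF3 h_KNW hb hf W h1 h2 hu hv

end MID_

open MID_

theorem p_MID (h_KRD : T_KRD.{u}) (h_KPR : T_KPR.{u}) (h_LX3 : T_LX3) (h_HF3 : T_HF3)
    (h_KNW : T_KNW.{u}) (h_VTW : T_VTW.{u}) : T_MID.{u} := by
  intro K _ _ b hb N f hf W h1 h2 _
  exact main h_KRD h_KPR h_LX3 h_HF3 h_KNW h_VTW hb hf W h1 h2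

end Pool.Agent.EGY
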