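import Pool.Agent.EGY.Targets

set_option autoImplicit false
open MvPolynomial hiding R

/-!
# Project EGY: p_MLC, multilinear forms without a common zero: counting by the transcendence degree
-/

namespace Pool.Agent.EGY

open Pool.Agent.EGU Pool.Agent.EGS Pool.Agent.EGT Pool.Agent.EGX

universe u

noncomputable section

namespace MLC_

variable {K : Type u} [Field K] {k p c : ℕ}

/-- The weights. -/
def w (k p : ℕ) : Fin k × Fin p → (Fin k → ℕ) := fun x => Pi.single x.1 1

lemma wt (d : Fin k × Fin p →₀ ℕ) :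
    Finsupp.weight (w k p) d = fun i => ∑ j, d (i, j) := by
  rw [Finsupp.weight_apply, Finsupp.sum_fintype _ _ (by simp), Fintype.sum_prod_type]
  ext i
  rw [Finset.sum_apply, Finset.sum_eq_single i]
  · rw [Finset.sum_apply]
    apply Finset.sum_congr rfl
    intro j _
    simp [w]
  · intro i' _ hi
    rw [Finset.sum_apply]
    apply Finset.sum_eq_zero
    intro j _
    simp [w, Ne.symm hi]
  · simp

lemma sum_w (φ : Fin k → Fin p) : ∑ i, w k p (i, φ i) = fun _ => 1 := by
  simp only [w]
  exact Finset.univ_sum_single (fun _ : Fin k => (1 : ℕ))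

lemma mlf_hom (b : (Fin k → Fin p) → Fin c → K) (t : Fin c) :
    (mlf b t).IsWeightedHomogeneous (w k p) (fun _ => 1 : Fin k → ℕ) := by
  unfold mlf
  apply MvPolynomial.IsWeightedHomogeneous.sum
  intro φ _
  have h1 : (MvPolynomial.C (b φ t) : MvPolynomial (Fin k × Fin p) K).IsWeightedHomogeneous
      (w k p) 0 := MvPolynomial.isWeightedHomogeneous_C _ _
  have h2 : (∏ i, MvPolynomial.X (i, φ i) :
      MvPolynomial (Fin k × Fin p) K).IsWeightedHomogeneous (w k p) (∑ i, w k p (i, φ i)) :=
    MvPolynomial.IsWeightedHomogeneous.prod _ _ _ fun i _ =>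
      MvPolynomial.isWeightedHomogeneous_X _ _ _
  have h := h1.mul h2
  rwa [zero_add, sum_w] at h

lemma comp_mul (g : MvPolynomial (Fin k × Fin p) K) (m n : Fin k → ℕ)
    (hg : g.IsWeightedHomogeneous (w k p) m) (f : MvPolynomial (Fin k × Fin p) K) :
    MvPolynomial.weightedHomogeneousComponent (w k p) (n + m) (f * g) =
      MvPolynomial.weightedHomogeneousComponent (w k p) n f * g := by
  induction f using MvPolynomial.induction_on' with
  | monomial d a =>
    have h1 : (MvPolynomial.monomial d a).IsWeightedHomogeneous (w k p)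
        (Finsupp.weight (w k p) d) := MvPolynomial.isWeightedHomogeneous_monomial _ _ _ rfl
    have h2 := h1.mul hg
    rw [MvPolynomial.weightedHomogeneousComponent_of_mem h2,
      MvPolynomial.weightedHomogeneousComponent_of_mem h1]
    by_cases h : n = Finsupp.weight (w k p) d
    · rw [if_pos h, if_pos (by rw [h])]
    · rw [if_neg h, if_neg (fun h' => h (add_right_cancel h')), zero_mul]
  | add f1 f2 h1 h2 =>
    rw [add_mul, map_add, h1, h2, map_add, add_mul]

/-- The spanning set. -/
def G (K : Type u) [Field K] (k p J0 : ℕ) : Set (MvPolynomial (Fin k × Fin p) K) :=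
  (fun d : Fin k × Fin p →₀ ℕ => MvPolynomial.monomial d (1 : K)) ''
    {d | ∃ j < J0, Finsupp.weight (w k p) d = fun _ => j}

lemma G_fin (J0 : ℕ) : (G K k p J0).Finite := by
  apply Set.Finite.image
  apply Set.Finite.subset (Set.finite_Iic (Finsupp.equivFunOnFinite.symm (fun _ => J0) :
    Fin k × Fin p →₀ ℕ))
  rintro d ⟨j, hj, hd⟩
  rw [wt] at hd
  rw [Set.mem_Iic]
  rintro ⟨i, l⟩
  have h1 := congrFun hd i
  have h3 : d (i, l) ≤ ∑ j, d (i, j) :=
    Finset.single_le_sum (f := fun j => d (i, j)) (fun _ _ => Nat.zero_le _)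
      (Finset.mem_univ l)
  simp only [Finsupp.equivFunOnFinite_symm_apply_apply]
  omega

lemma big (n N j : ℕ) (f : Fin n → ℕ) (hf : ∑ i, f i = j) (hj : N * n + 1 ≤ j) :
    ∃ i, N ≤ f i := by
  by_contra hcon
  push Not at hcon
  have h : ∑ i, f i ≤ ∑ _i : Fin n, N := Finset.sum_le_sum fun i _ => (hcon i).le
  rw [Finset.sum_const, Finset.card_univ, Fintype.card_fin, smul_eq_mul, mul_comm] at h
  omega

/-- The exponent of a product of one variable from every group. -/
def ex (φ : Fin k → Fin p) : Fin k × Fin p →₀ ℕ := ∑ i, Finsupp.single (i, φ i) 1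

lemma ex_apply (φ : Fin k → Fin p) (x : Fin k) (y : Fin p) :
    ex φ (x, y) = if φ x = y then 1 else 0 := by
  unfold ex
  rw [Finsupp.finsetSum_apply, Finset.sum_eq_single x]
  · by_cases h : φ x = y
    · rw [if_pos h, h, Finsupp.single_eq_same]
    · rw [if_neg h, Finsupp.single_eq_of_ne]
      intro h'
      exact h (Prod.mk.inj h').2.symm
  · intro i _ hi
    rw [Finsupp.single_eq_of_ne]
    intro h'
    exact hi (Prod.mk.inj h').1.symm
  · simp

lemma prod_X (φ : Fin k → Fin p) : (∏ i, MvPolynomial.X (i, φ i) :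
    MvPolynomial (Fin k × Fin p) K) = MvPolynomial.monomial (ex φ) 1 := by
  unfold ex
  rw [MvPolynomial.monomial_sum_one]
  rfl

lemma wt_ex (φ : Fin k → Fin p) : Finsupp.weight (w k p) (ex φ) = fun _ => 1 := by
  rw [wt]
  ext i
  simp only [ex_apply]
  simp

/-- The main claim. -/
lemma star (b : (Fin k → Fin p) → Fin c → K) (N : ℕ)
    (hb : ∀ φ : Fin k → Fin p,
    (∏ i, MvPolynomial.X (i, φ i) : MvPolynomial (Fin k × Fin p) K) ^ N ∈
      Ideal.span (Set.range (mlf b)))
    (A : Subalgebra K (MvPolynomial (Fin k × Fin p) K)) (hA : ∀ t, mlf b t ∈ A) (J0 : ℕ)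
    (hJ : N * p + 1 ≤ J0) :
    ∀ (j : ℕ) (d : Fin k × Fin p →₀ ℕ), Finsupp.weight (w k p) d = (fun _ => j) →
      MvPolynomial.monomial d (1 : K) ∈ Submodule.span A (G K k p J0) := by
  intro j
  induction j using Nat.strong_induction_on with
  | _ j ih =>
  intro d hd
  by_cases hjJ : j < J0
  · exact Submodule.subset_span ⟨d, ⟨j, hjJ, hd⟩, rfl⟩
  have hd' := hd
  rw [wt] at hd'
  have hbig : ∀ i, ∃ l, N ≤ d (i, l) := fun i => big p N j _ (congrFun hd' i) (by omega)
  choose φ hφ using hbig
  -- the monomial is in the ideal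
  have hmem : MvPolynomial.monomial d (1 : K) ∈ Ideal.span (Set.range (mlf b)) := by
    have hle : N • ex φ ≤ d := by
      rintro ⟨x, y⟩
      rw [Finsupp.smul_apply, ex_apply]
      split_ifs with h
      · rw [← h, smul_eq_mul, mul_one]
        exact hφ x
      · simp
    have h1 : MvPolynomial.monomial d (1 : K) =
        (∏ i, MvPolynomial.X (i, φ i)) ^ N *
        MvPolynomial.monomial (d - N • ex φ) (1 : K) := by
      rw [prod_X, MvPolynomial.monomial_pow, MvPolynomial.monomial_mul,
        add_tsub_cancel_of_le hle]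
      simp
    rw [h1]
    exact Ideal.mul_mem_right _ _ (hb φ)
  rw [Ideal.mem_span_range_iff_exists_fun] at hmem
  obtain ⟨h, hh⟩ := hmem
  have hj1 : 1 ≤ j := by omega
  have e1 : ((fun _ => j - 1 : Fin k → ℕ)) + (fun _ => 1) = (fun _ => j) := by
    ext i
    simp only [Pi.add_apply]
    omega
  have h2 : MvPolynomial.monomial d (1 : K) = ∑ t, mlf b t *
      MvPolynomial.weightedHomogeneousComponent (w k p) (fun _ => j - 1) (h t) := by
    have h3 : MvPolynomial.weightedHomogeneousComponent (w k p) (fun _ => j : Fin k → ℕ)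
        (MvPolynomial.monomial d (1 : K)) = MvPolynomial.monomial d (1 : K) :=
      MvPolynomial.weightedHomogeneousComponent_eq_self
        (MvPolynomial.isWeightedHomogeneous_monomial _ _ _ hd)
    rw [← h3, ← hh, map_sum]
    apply Finset.sum_congr rfl
    intro t _
    rw [← e1, comp_mul _ _ _ (mlf_hom b t), mul_comm]
  rw [h2]
  apply Submodule.sum_mem
  intro t _
  have hcomp : MvPolynomial.weightedHomogeneousComponent (w k p) (fun _ => j - 1) (h t) ∈
      Submodule.span A (G K k p J0) := by
    have h4 := MvPolynomial.weightedHomogeneousComponent_isWeightedHomogeneous (w := w k p)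
      (fun _ => j - 1 : Fin k → ℕ) (h t)
    rw [(MvPolynomial.weightedHomogeneousComponent (w k p) (fun _ => j - 1) (h t)).as_sum]
    apply Submodule.sum_mem
    intro e he
    have h5 := h4 (MvPolynomial.mem_support_iff.1 he)
    have h6 := ih (j - 1) (by omega) e h5
    have h7 : MvPolynomial.monomial e (MvPolynomial.coeff e
        (MvPolynomial.weightedHomogeneousComponent (w k p) (fun _ => j - 1) (h t))) =
        (algebraMap K A (MvPolynomial.coeff e
        (MvPolynomial.weightedHomogeneousComponent (w k p) (fun _ => j - 1) (h t)))) •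
          MvPolynomial.monomial e (1 : K) := by
      rw [algebraMap_smul, MvPolynomial.smul_monomial, smul_eq_mul, mul_one]
    rw [h7]
    exact Submodule.smul_mem _ _ h6
  exact Submodule.smul_mem _ (⟨mlf b t, hA t⟩ : A) hcomp

lemma integral (b : (Fin k → Fin p) → Fin c → K) (N : ℕ)
    (hb : ∀ φ : Fin k → Fin p,
    (∏ i, MvPolynomial.X (i, φ i) : MvPolynomial (Fin k × Fin p) K) ^ N ∈
      Ideal.span (Set.range (mlf b)))
    (A : Subalgebra K (MvPolynomial (Fin k × Fin p) K)) (hA : ∀ t, mlf b t ∈ A)
    (φ : Fin k → Fin p) :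
    IsIntegral A (∏ i, MvPolynomial.X (i, φ i) : MvPolynomial (Fin k × Fin p) K) := by
  have hst := star b N hb A hA (N * p + 1) le_rfl
  apply isIntegral_of_smul_mem_submodule (M := MvPolynomial (Fin k × Fin p) K)
    (Submodule.span A (G K k p (N * p + 1)))
  · intro hbot
    have h1 := hst 0 0 (by rw [map_zero]; rfl)
    rw [hbot, Submodule.mem_bot] at h1
    simp at h1
  · exact Submodule.fg_span (G_fin _)
  · intro n hn
    rw [smul_eq_mul]
    induction hn using Submodule.span_induction with
    | mem x hx =>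
      obtain ⟨d, ⟨j, _, hd⟩, rfl⟩ := hx
      change (∏ i, MvPolynomial.X (i, φ i) : MvPolynomial (Fin k × Fin p) K) *
        MvPolynomial.monomial d (1 : K) ∈ _
      rw [prod_X, MvPolynomial.monomial_mul, one_mul]
      apply hst (j + 1)
      rw [map_add, hd, wt_ex]
      ext i
      simp only [Pi.add_apply]
      omega
    | zero => rw [mul_zero]; exact Submodule.zero_mem _
    | add x y _ _ hx hy =>
      rw [mul_add (∏ i, MvPolynomial.X (i, φ i) : MvPolynomial (Fin k × Fin p) K)]
      exact Submodule.add_mem _ hx hy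
    | smul a x _ hx => rw [mul_smul_comm]; exact Submodule.smul_mem _ _ hx

end MLC_

open MLC_ in
theorem p_MLC : T_MLC.{u} := by
  intro K _ k p c N b hp hb
  rcases Nat.eq_zero_or_pos k with hk | hk
  · subst hk
    rcases Nat.eq_zero_or_pos c with hc | hc
    · subst hc
      exfalso
      have h1 := hb (fun i => i.elim0)
      rw [Set.range_eq_empty, Ideal.span_empty, Ideal.mem_bot] at h1
      simp at h1
    · omega
  obtain ⟨z⟩ : Nonempty (Fin p) := ⟨⟨0, hp⟩⟩
  obtain ⟨i0⟩ : Nonempty (Fin k) := ⟨⟨0, hk⟩⟩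
  let s : Set (MvPolynomial (Fin k × Fin p) K) :=
    Set.range (mlf b) ∪ (fun i : Fin k => MvPolynomial.X (i, z)) '' {i | i ≠ i0}
  let A := Algebra.adjoin K s
  have hA : ∀ t, mlf b t ∈ A := fun t => Algebra.subset_adjoin (Or.inl ⟨t, rfl⟩)
  have hX0 : ∀ i, i ≠ i0 → (MvPolynomial.X (i, z) : MvPolynomial (Fin k × Fin p) K) ∈ A :=
    fun i hi => Algebra.subset_adjoin (Or.inr ⟨i, hi, rfl⟩)
  have hint := integral b N hb A hA
  have hprodalg : ∀ t : Finset (Fin k), (∀ i ∈ t,
      IsAlgebraic A (MvPolynomial.X (i, z) : MvPolynomial (Fin k × Fin p) K)) →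
      IsAlgebraic A (∏ i ∈ t, MvPolynomial.X (i, z) : MvPolynomial (Fin k × Fin p) K) := by
    intro t
    induction t using Finset.induction_on with
    | empty =>
      intro _
      rw [Finset.prod_empty]
      exact isAlgebraic_one
    | insert a t ha ih =>
      intro h
      rw [Finset.prod_insert ha]
      exact (h a (Finset.mem_insert_self a t)).mul
        (ih fun i hi => h i (Finset.mem_insert_of_mem hi))
  have hne : ∀ t : Finset (Fin k), (∏ i ∈ t, MvPolynomial.X (i, z) :
      MvPolynomial (Fin k × Fin p) K) ∈ nonZeroDivisors (MvPolynomial (Fin k × Fin p) K) :=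
    fun t => mem_nonZeroDivisors_of_ne_zero
      (Finset.prod_ne_zero_iff.2 fun i _ => MvPolynomial.X_ne_zero _)
  have hsplit : ∀ (i : Fin k) (j : Fin p),
      (∏ i', MvPolynomial.X (i', Function.update (fun _ => z) i j i') :
        MvPolynomial (Fin k × Fin p) K) =
      (∏ i' ∈ Finset.univ.erase i, MvPolynomial.X (i', z)) * MvPolynomial.X (i, j) := by
    intro i j
    rw [← Finset.mul_prod_erase Finset.univ _ (Finset.mem_univ i), mul_comm,
      Function.update_self]
    congr 1
    apply Finset.prod_congr rfl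
    intro i' hi'
    rw [Function.update_of_ne (Finset.ne_of_mem_erase hi')]
  have hz : ∀ i, IsAlgebraic A
      (MvPolynomial.X (i, z) : MvPolynomial (Fin k × Fin p) K) := by
    intro i
    by_cases hi : i = i0
    · have h1 := (hint (Function.update (fun _ => z) i z)).isAlgebraic
      rw [hsplit] at h1
      refine IsAlgebraic.of_mul (hne _) (hprodalg _ ?_) h1
      intro i' hi'
      exact isAlgebraic_algebraMap
        (⟨_, hX0 i' (hi ▸ Finset.ne_of_mem_erase hi')⟩ : A)
    · exact isAlgebraic_algebraMap (⟨_, hX0 i hi⟩ : A)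
  have hall : ∀ (i : Fin k) (j : Fin p), IsAlgebraic A
      (MvPolynomial.X (i, j) : MvPolynomial (Fin k × Fin p) K) := by
    intro i j
    have h1 := (hint (Function.update (fun _ => z) i j)).isAlgebraic
    rw [hsplit] at h1
    exact IsAlgebraic.of_mul (hne _) (hprodalg _ fun i' _ => hz i') h1
  have halg : Algebra.IsAlgebraic A (MvPolynomial (Fin k × Fin p) K) := by
    constructor
    intro f
    induction f using MvPolynomial.induction_on with
    | C a => exact isAlgebraic_algebraMap (algebraMap K A a)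
    | add f g hf hg => exact hf.add hg
    | mul_X f x hf => exact hf.mul (hall x.1 x.2)
  have hle := Algebra.IsAlgebraic.trdeg_le_cardinalMk K s
  rw [MvPolynomial.trdeg_of_isDomain] at hle
  have hs : Cardinal.mk s ≤ (c : Cardinal) + ((k - 1 : ℕ) : Cardinal) := by
    refine (Cardinal.mk_union_le _ _).trans ?_
    gcongr
    · have h := Cardinal.mk_range_le_lift (f := mlf b)
      simpa using h
    · have h := Cardinal.mk_image_le_lift (s := {i : Fin k | i ≠ i0})
        (f := fun i : Fin k => (MvPolynomial.X (i, z) : MvPolynomial (Fin k × Fin p) K))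
      have h2 : Cardinal.mk ↥{i : Fin k | i ≠ i0} = ((k - 1 : ℕ) : Cardinal) := by
        rw [Cardinal.mk_fintype, Set.card_ne_eq, Fintype.card_fin]
      rw [h2] at h
      simpa using h
  have h3 := hle.trans hs
  simp only [Cardinal.mk_fintype, Fintype.card_prod, Fintype.card_fin,
    Cardinal.lift_natCast] at h3
  have h4 : k * p ≤ c + (k - 1) := by exact_mod_cast h3
  obtain ⟨q, rfl⟩ : ∃ q, p = q + 1 := ⟨p - 1, by omega⟩
  rw [Nat.add_sub_cancel]
  rw [Nat.mul_succ] at h4
  omega

end

end Pool.Agent.EGY
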