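import Pool.Agent.EGY.Targets

set_option autoImplicit false
open MvPolynomial hiding R

/-!
# EGY: MLN, the Nullstellensatz for multilinear forms
-/

namespace Pool.Agent.EGY

open Pool.Agent.EGU Pool.Agent.EGS Pool.Agent.EGT Pool.Agent.EGX

universe u

noncomputable section

namespace MLN_

variable {K : Type u} [Field K] {k p c : ℕ}

theorem aeval_mlf (b : (Fin k → Fin p) → Fin c → K) (t : Fin c) (z : Fin k × Fin p → K) :
    MvPolynomial.aeval z (mlf b t) =
      ∑ φ : Fin k → Fin p, b φ t * ∏ i, z (i, φ i) := by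
  simp [mlf, map_sum, map_prod]

theorem mem_radical [IsAlgClosed K] (b : (Fin k → Fin p) → Fin c → K)
    (h : ∀ x : Fin k → Fin p → K, (∀ t, ∑ φ : Fin k → Fin p, b φ t * ∏ i, x i (φ i) = 0) →
      ∃ i, x i = 0) (φ : Fin k → Fin p) :
    (∏ i, MvPolynomial.X (i, φ i) : MvPolynomial (Fin k × Fin p) K) ∈
      (Ideal.span (Set.range (mlf b))).radical := by
  rw [← MvPolynomial.vanishingIdeal_zeroLocus_eq_radical (K := K),
    MvPolynomial.mem_vanishingIdeal_iff]
  intro z hz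
  rw [MvPolynomial.mem_zeroLocus_iff] at hz
  have h1 : ∀ t, ∑ ψ : Fin k → Fin p, b ψ t * ∏ i, z (i, ψ i) = 0 := by
    intro t
    rw [← aeval_mlf]
    exact hz _ (Ideal.subset_span ⟨t, rfl⟩)
  obtain ⟨i, hi⟩ := h (fun i j => z (i, j)) h1
  rw [map_prod]
  refine Finset.prod_eq_zero (Finset.mem_univ i) ?_
  rw [MvPolynomial.aeval_X]
  have h2 := congrFun hi (φ i)
  simpa using h2

end MLN_

open MLN_ in
theorem p_MLN : T_MLN.{u} := by
  intro K _ _ k p c b h
  have h1 : ∀ φ : Fin k → Fin p, ∃ N : ℕ,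
      (∏ i, MvPolynomial.X (i, φ i) : MvPolynomial (Fin k × Fin p) K) ^ N ∈
        Ideal.span (Set.range (mlf b)) :=
    fun φ => mem_radical b h φ
  choose N hN using h1
  refine ⟨∑ φ, N φ, fun φ => ?_⟩
  have hle : N φ ≤ ∑ ψ, N ψ :=
    Finset.single_le_sum (f := N) (fun _ _ => Nat.zero_le _) (Finset.mem_univ φ)
  exact Ideal.pow_mem_of_pow_mem _ (hN φ) hle

end

end Pool.Agent.EGY
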