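import Pool.Agent.EGY.Targets
import Pool.Agent.EGX.P_SML

set_option autoImplicit false
open MvPolynomial hiding R

/-!
# Project EGY, target SM5: small sequences
-/

namespace Pool.Agent.EGY

open Pool.Agent.EGU Pool.Agent.EGS Pool.Agent.EGT Pool.Agent.EGX

universe u

open Pool.Agent.EGT.KNW_ Pool.Agent.EGX.SML_ in
theorem p_SM5 (h_BIG : T_BIG.{u}) (h_BGE : T_BGE.{u}) (h_KNW : T_KNW.{u}) (h_QBB : T_QBB.{u})
    (h_TBC : T_TBC.{u}) (h_VTW : T_VTW.{u}) : T_SM5.{u} := by
  intro K _ _ n
  induction n with
  | zero =>
    intro a hm h2 _ d N f hf W h1 h3 _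
    have hS : S a 0 = 0 := (t_num 0 a).1
    exact (h_VTW K 0 f a hf hm h2 d W h1 h3).2.1 (by rw [hS]; exact Nat.zero_le d)
  | succ n ih =>
    intro a hm h2 hk
    have hmc : Monotone (a ∘ Fin.castSucc) := fun i j hij => hm (by simpa using hij)
    have h2c : ∀ i, 2 ≤ (a ∘ Fin.castSucc) i := fun i => h2 _
    obtain ⟨m, hmn, hm3, hbig⟩ := hk
    rcases Nat.lt_or_ge m (n + 1) with hlt | hge
    · refine SML_.last h_BIG h_BGE K n a hm h2 (hbig n (Nat.lt_succ_self n) (by omega))
        (ih _ hmc h2c ⟨m, by omega, ?_, ?_⟩)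
      · rcases hm3 with h | h | ⟨h, h'⟩
        · exact Or.inl h
        · right
          left
          rw [S_cast a m (by omega)]
          exact h
        · right
          right
          exact ⟨h, fun i j hi hj => h' (Fin.castSucc i) (Fin.castSucc j) hi hj⟩
      · intro j hj hmj
        rw [S_cast a j (by omega)]
        exact hbig j (by omega) hmj
    · have hmeq : m = n + 1 := le_antisymm hmn hge
      rcases hm3 with h | h | ⟨h, h'⟩
      · refine h_KNW K (n + 1) a hm h2 ⟨m, hmn, Or.inl h, fun j hj hmj => ?_⟩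
        omega
      · refine h_KNW K (n + 1) a hm h2 ⟨m, hmn, Or.inr h, fun j hj hmj => ?_⟩
        omega
      · have hn3 : n = 3 := by omega
        subst hn3
        have h01 : a 0 + a 1 ≤ 5 := h' 0 1 rfl rfl
        have h0 := h2 0
        have h1 := h2 1
        have hle : a 0 ≤ a 1 := hm (by decide)
        have h12 : a 1 ≤ a 2 := hm (by decide)
        have h23 : a 2 ≤ a 3 := hm (by decide)
        have ha0 : a 0 = 2 := by omega
        rcases Nat.lt_or_ge (a 1) 3 with h3 | h3
        · exact SML_.four h_BIG h_BGE h_KNW h_QBB K a hm h2 ha0 (by omega)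
        · have heq : a = ![2, 3, a 2, a 3] := by
            funext i
            fin_cases i
            · exact ha0
            · show a 1 = 3
              omega
            · rfl
            · rfl
          rw [heq]
          exact h_TBC K (a 2) (a 3) (by omega) h23

end Pool.Agent.EGY
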