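import Pool.Agent.EGY.Targets
import Pool.Agent.EGX.P_RGB
import Pool.Agent.EGS.P_DUA

set_option autoImplicit false
open MvPolynomial hiding R

/-!
# Project EGY, target TBB: the degrees 2, 3, b, b
-/

namespace Pool.Agent.EGY

open Pool.Agent.EGU Pool.Agent.EGS Pool.Agent.EGT Pool.Agent.EGX

universe u

namespace TBB_

theorem mono4 {x y : ℕ} (hx : 3 ≤ x) (hxy : x ≤ y) : Monotone (![2, 3, x, y] : Fin 4 → ℕ) := by
  intro i j hij
  fin_cases i <;> fin_cases j <;> simp_all <;> omega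

theorem two4 {x y : ℕ} (hx : 3 ≤ x) (hxy : x ≤ y) : ∀ i, 2 ≤ (![2, 3, x, y] : Fin 4 → ℕ) i := by
  intro i
  fin_cases i <;> simp <;> omega

theorem S4 (w x y : ℕ) (hw : 2 ≤ w) (hx : w ≤ x) (hxy : x ≤ y) :
    S (![2, w, x, y] : Fin 4 → ℕ) 4 + 2 = w + x + y := by
  set a : Fin 4 → ℕ := ![2, w, x, y] with ha
  have e0 := (t_num 4 a).1
  have e1 : S a 1 = S a 0 + (a 0 - 1) := (t_num 4 a).2.1 0 (by norm_num)
  have e2 : S a 2 = S a 1 + (a 1 - 1) := (t_num 4 a).2.1 1 (by norm_num)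
  have e3 : S a 3 = S a 2 + (a 2 - 1) := (t_num 4 a).2.1 2 (by norm_num)
  have e4 : S a 4 = S a 3 + (a 3 - 1) := (t_num 4 a).2.1 3 (by norm_num)
  have f0 : a 0 = 2 := rfl
  have f1 : a 1 = w := rfl
  have f2 : a 2 = x := rfl
  have f3 : a 3 = y := rfl
  omega

/-- Low degrees. -/
theorem low (h_RGA : T_RGA.{u}) (h_KNW : T_KNW.{u}) (K : Type u) [Field K] [IsAlgClosed K]
    (b : ℕ) (hb : 3 ≤ b) (d : ℕ) (hd : d + 1 < b) (N : ℕ) :
    EA K (![2, 3, b, b] : Fin 4 → ℕ) d N := by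
  have hinf : Infinite K := inferInstance
  set a : Fin 4 → ℕ := ![2, 3, b, b] with ha
  have hm : Monotone a := mono4 hb le_rfl
  have h2 : ∀ i, 2 ≤ a i := two4 hb le_rfl
  have hr : 2 ≤ 4 := by norm_num
  intro f hf W hW1 hW2 _
  have hj : ∀ e, e < b → ∀ j : Fin 4, 2 ≤ (j : ℕ) → e + 1 ≤ a j := by
    intro e he j hj
    fin_cases j
    · simp at hj
    · simp at hj
    · change e + 1 ≤ b
      omega
    · change e + 1 ≤ b
      omega
  have hEG : EG K (a ∘ Fin.castLE hr) := h_KNW K 2 _ (fun i j hij => hm hij) (fun i => h2 _)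
    ⟨2, le_rfl, Or.inl (by norm_num), fun j hj h3 => absurd hj (by omega)⟩
  have e1 : Jd f d = Jd (f ∘ Fin.castLE hr) d := RGB_.Jd_eq f a hf hr (hj d (by omega))
  have e2 : Jd f (d + 1) = Jd (f ∘ Fin.castLE hr) (d + 1) :=
    RGB_.Jd_eq f a hf hr (hj (d + 1) hd)
  have h1 := h_RGA K 4 2 hr d a hm h2 hEG (hj d (by omega)) (f ∘ Fin.castLE hr)
    (RGB_.CI_init f a hf hr) W (by rw [← e1]; exact hW1) hW2
  have e3 : up f d W = up (f ∘ Fin.castLE hr) d W := by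
    unfold up
    rw [e2]
  unfold GoodA
  rw [e1, e2, e3]
  exact h1

/-- The degree `b - 1`. -/
theorem mid (h_RGB : T_RGB.{u}) (h_KNW : T_KNW.{u}) (K : Type u) [Field K] [IsAlgClosed K]
    (b : ℕ) (hb : 4 ≤ b) (hE : EG K (![2, 3, b - 1, b - 1] : Fin 4 → ℕ)) (d : ℕ)
    (hd : d + 1 = b) (N : ℕ) : EA K (![2, 3, b, b] : Fin 4 → ℕ) d N := by
  have hinf : Infinite K := inferInstance
  have hd' : b - 1 = d := by omega
  rw [hd'] at hE
  have hEG2 : EG K ((![2, 3, b, b] : Fin 4 → ℕ) ∘ Fin.castLE (show 2 ≤ 4 by norm_num)) :=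
    h_KNW K 2 _ (fun i j hij => mono4 (by omega) le_rfl hij) (fun i => two4 (by omega) le_rfl _)
    ⟨2, le_rfl, Or.inl (by norm_num), fun j hj h3 => absurd hj (by omega)⟩
  have hEG3 : EG K ((![2, 3, d, b] : Fin 4 → ℕ) ∘ Fin.castLE (show 3 ≤ 4 by norm_num)) :=
    h_KNW K 3 _ (fun i j hij => mono4 (by omega) (by omega) hij)
    (fun i => two4 (by omega) (by omega) _)
    ⟨3, le_rfl, Or.inl (by norm_num), fun j hj h3 => absurd hj (by omega)⟩
  have hu1 : Function.update (![2, 3, b, b] : Fin 4 → ℕ) ⟨2, by norm_num⟩ d =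
      ![2, 3, d, b] := by
    funext i
    fin_cases i <;> rfl
  have hu2 : Function.update (![2, 3, d, b] : Fin 4 → ℕ) ⟨3, by norm_num⟩ d =
      ![2, 3, d, d] := by
    funext i
    fin_cases i <;> rfl
  refine h_RGB K 4 2 d (by norm_num) (![2, 3, b, b] : Fin 4 → ℕ) (mono4 (by omega) le_rfl)
    (two4 (by omega) le_rfl) (by omega) ?_ hEG2 ?_ N
  · change b = d + 1
    omega
  · intro N'
    rw [hu1]
    refine h_RGB K 4 3 d (by norm_num) (![2, 3, d, b] : Fin 4 → ℕ) (mono4 (by omega) (by omega))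
      (two4 (by omega) (by omega)) (by omega) ?_ hEG3 ?_ N'
    · change b = d + 1
      omega
    · intro N''
      rw [hu2]
      exact hE d N''

/-- The degree `2` for 2, 3, 3, 3. -/
theorem mid3 (h_RGB : T_RGB.{u}) (h_KNW : T_KNW.{u}) (K : Type u) [Field K] [IsAlgClosed K]
    (N : ℕ) : EA K (![2, 3, 3, 3] : Fin 4 → ℕ) 2 N := by
  have hinf : Infinite K := inferInstance
  have hEG1 : EG K ((![2, 3, 3, 3] : Fin 4 → ℕ) ∘ Fin.castLE (show 1 ≤ 4 by norm_num)) :=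
    h_KNW K 1 _ (fun i j hij => mono4 le_rfl le_rfl hij) (fun i => two4 le_rfl le_rfl _)
    ⟨1, le_rfl, Or.inl (by norm_num), fun j hj h3 => absurd hj (by omega)⟩
  have hu1 : Function.update (![2, 3, 3, 3] : Fin 4 → ℕ) ⟨1, by norm_num⟩ 2 =
      ![2, 2, 3, 3] := by
    funext i
    fin_cases i <;> rfl
  have hm : Monotone (![2, 2, 3, 3] : Fin 4 → ℕ) := by
    intro i j hij
    fin_cases i <;> fin_cases j <;> simp_all
  have h2 : ∀ i, 2 ≤ (![2, 2, 3, 3] : Fin 4 → ℕ) i := by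
    intro i
    fin_cases i <;> simp
  refine h_RGB K 4 1 2 (by norm_num) (![2, 3, 3, 3] : Fin 4 → ℕ) (mono4 le_rfl le_rfl)
    (two4 le_rfl le_rfl) (by omega) rfl hEG1 ?_ N
  intro N'
  rw [hu1]
  refine h_KNW K 4 _ hm h2 ⟨4, le_rfl, Or.inr ?_, fun j hj h3 => absurd hj (by omega)⟩ 2 N'
  have := S4 2 3 3 le_rfl (by norm_num) le_rfl
  omega

/-- From the degrees `d ≤ b` to all degrees. -/
theorem all (h_VTW : T_VTW.{u}) (K : Type u) [Field K] (b : ℕ) (hb : 3 ≤ b)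
    (hlow : ∀ d, d ≤ b → ∀ N, EA K (![2, 3, b, b] : Fin 4 → ℕ) d N) :
    EG K (![2, 3, b, b] : Fin 4 → ℕ) := by
  have hm := mono4 (x := b) (y := b) hb le_rfl
  have h2 := two4 (x := b) (y := b) hb le_rfl
  have hS := S4 3 b b (by norm_num) hb le_rfl
  set a : Fin 4 → ℕ := ![2, 3, b, b] with ha
  intro d N f hf W hW1 hW2 hN
  by_cases hd : d ≤ b
  · exact hlow d hd N f hf W hW1 hW2 hN
  · obtain ⟨_, v2, v3⟩ := h_VTW K 4 f a hf hm h2 d W hW1 hW2
    by_cases hds : S a 4 ≤ d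
    · exact v2 hds
    · obtain ⟨d', hd'⟩ : ∃ d', d + d' + 1 = S a 4 := ⟨S a 4 - 1 - d, by omega⟩
      obtain ⟨w1, w2, _, _⟩ := p_DUA K 4 f a hf hm d d' hd' W hW1 hW2
      exact v3 d' hd' (hlow d' (by omega) (Module.finrank K (Rd K 4 2)) f hf _ w1 w2
        (Nat.le_add_left _ _))

end TBB_

open TBB_

theorem p_TBB (h_MID : T_MID.{u}) (h_RGA : T_RGA.{u}) (h_RGB : T_RGB.{u}) (h_KNW : T_KNW.{u})
    (h_VTW : T_VTW.{u}) : T_TBB.{u} := by
  intro K _ _ b hb
  induction b, hb using Nat.le_induction with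
  | base =>
    refine TBB_.all h_VTW K 3 le_rfl ?_
    intro d hd N
    rcases Nat.lt_or_ge (d + 1) 3 with h | h
    · exact low h_RGA h_KNW K 3 le_rfl d h N
    · rcases Nat.lt_or_ge d 3 with h' | h'
      · have hd2 : d = 2 := by omega
        subst hd2
        exact mid3 h_RGB h_KNW K N
      · have hd3 : d = 3 := le_antisymm hd h'
        subst hd3
        exact h_MID K 3 le_rfl N
  | succ b hb ih =>
    refine TBB_.all h_VTW K (b + 1) (by omega) ?_
    intro d hd N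
    rcases Nat.lt_or_ge (d + 1) (b + 1) with h | h
    · exact low h_RGA h_KNW K (b + 1) (by omega) d h N
    · rcases Nat.lt_or_ge d (b + 1) with h' | h'
      · exact mid h_RGB h_KNW K (b + 1) (by omega) ih d (by omega) N
      · have hd3 : d = b + 1 := le_antisymm hd h'
        subst hd3
        exact h_MID K (b + 1) (by omega) N

end Pool.Agent.EGY
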