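import Pool.Agent.EGY.Targets
import Pool.Agent.EGX.P_SML
import Pool.Agent.EGX.P_RGB
import Pool.Agent.EGS.P_DUA

set_option autoImplicit false
open MvPolynomial hiding R

/-!
# Project EGY, target TBC: the degrees 2, 3, b, c
-/

namespace Pool.Agent.EGY

open Pool.Agent.EGU Pool.Agent.EGS Pool.Agent.EGT Pool.Agent.EGX

universe u

namespace TBC_

theorem mono {x y : ℕ} (hx : 3 ≤ x) (hxy : x ≤ y) : Monotone (![2, 3, x, y] : Fin 4 → ℕ) := by
  intro i j hij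
  fin_cases i <;> fin_cases j <;> simp_all <;> omega

theorem two {x y : ℕ} (hx : 3 ≤ x) (hxy : x ≤ y) : ∀ i, 2 ≤ (![2, 3, x, y] : Fin 4 → ℕ) i := by
  intro i
  fin_cases i <;> simp <;> omega

theorem S34 (x y : ℕ) (hx : 3 ≤ x) (hxy : x ≤ y) :
    S (![2, 3, x, y] : Fin 4 → ℕ) 3 = x + 2 ∧ S (![2, 3, x, y] : Fin 4 → ℕ) 4 = x + y + 1 := by
  set a : Fin 4 → ℕ := ![2, 3, x, y] with ha
  have e0 := (t_num 4 a).1
  have e1 : S a 1 = S a 0 + (a 0 - 1) := (t_num 4 a).2.1 0 (by norm_num)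
  have e2 : S a 2 = S a 1 + (a 1 - 1) := (t_num 4 a).2.1 1 (by norm_num)
  have e3 : S a 3 = S a 2 + (a 2 - 1) := (t_num 4 a).2.1 2 (by norm_num)
  have e4 : S a 4 = S a 3 + (a 3 - 1) := (t_num 4 a).2.1 3 (by norm_num)
  have f0 : a 0 = 2 := rfl
  have f1 : a 1 = 3 := rfl
  have f2 : a 2 = x := rfl
  have f3 : a 3 = y := rfl
  omega

/-- Three variables. -/
theorem three (h_KNW : T_KNW.{u}) (K : Type u) [Field K] [IsAlgClosed K] (x y : ℕ) (hx : 3 ≤ x)
    (hxy : x ≤ y) :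
    EG K ((![2, 3, x, y] : Fin 4 → ℕ) ∘ Fin.castLE (show 3 ≤ 4 by norm_num)) :=
  h_KNW K 3 _ (fun i j hij => mono hx hxy hij) (fun i => two hx hxy _)
    ⟨3, le_rfl, Or.inl (by norm_num), fun j hj h3 => absurd hj (by omega)⟩

/-- Low degrees. -/
theorem low (h_RGA : T_RGA.{u}) (h_KNW : T_KNW.{u}) (K : Type u) [Field K] [IsAlgClosed K]
    (b : ℕ) (hb : 3 ≤ b) (d : ℕ) (hd : d < b) (N : ℕ) :
    EA K (![2, 3, b, b + 1] : Fin 4 → ℕ) d N := by
  have hinf : Infinite K := inferInstance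
  have hEG := three h_KNW K b (b + 1) hb (by omega)
  set a : Fin 4 → ℕ := ![2, 3, b, b + 1] with ha
  have hm : Monotone a := mono hb (by omega)
  have h2 : ∀ i, 2 ≤ a i := two hb (by omega)
  have hr : 3 ≤ 4 := by norm_num
  intro f hf W hW1 hW2 _
  have hj : ∀ e, e < b + 1 → ∀ j : Fin 4, 3 ≤ (j : ℕ) → e + 1 ≤ a j := by
    intro e he j hj
    fin_cases j
    · simp at hj
    · simp at hj
    · simp at hj
    · change e + 1 ≤ b + 1
      omega
  have e1 : Jd f d = Jd (f ∘ Fin.castLE hr) d := RGB_.Jd_eq f a hf hr (hj d (by omega))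
  have e2 : Jd f (d + 1) = Jd (f ∘ Fin.castLE hr) (d + 1) :=
    RGB_.Jd_eq f a hf hr (hj (d + 1) (by omega))
  have h1 := h_RGA K 4 3 hr d a hm h2 hEG (hj d (by omega)) (f ∘ Fin.castLE hr)
    (RGB_.CI_init f a hf hr) W (by rw [← e1]; exact hW1) hW2
  have e3 : up f d W = up (f ∘ Fin.castLE hr) d W := by
    unfold up
    rw [e2]
  unfold GoodA
  rw [e1, e2, e3]
  exact h1

/-- The degree `b`. -/
theorem mid (h_RGB : T_RGB.{u}) (h_KNW : T_KNW.{u}) (K : Type u) [Field K] [IsAlgClosed K]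
    (b : ℕ) (hb : 3 ≤ b) (hE : EG K (![2, 3, b, b] : Fin 4 → ℕ)) (N : ℕ) :
    EA K (![2, 3, b, b + 1] : Fin 4 → ℕ) b N := by
  have hinf : Infinite K := inferInstance
  have hu : Function.update (![2, 3, b, b + 1] : Fin 4 → ℕ) ⟨3, by norm_num⟩ b =
      ![2, 3, b, b] := by
    funext i
    fin_cases i <;> rfl
  refine h_RGB K 4 3 b (by norm_num) (![2, 3, b, b + 1] : Fin 4 → ℕ) (mono hb (by omega))
    (two hb (by omega)) (by omega) rfl (three h_KNW K b (b + 1) hb (by omega)) ?_ N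
  intro N'
  rw [hu]
  exact hE b N'

/-- The case `c = b + 1`. -/
theorem one (h_TBB : T_TBB.{u}) (h_RGA : T_RGA.{u}) (h_RGB : T_RGB.{u}) (h_KNW : T_KNW.{u})
    (h_VTW : T_VTW.{u}) (K : Type u) [Field K] [IsAlgClosed K] (b : ℕ) (hb : 3 ≤ b) :
    EG K (![2, 3, b, b + 1] : Fin 4 → ℕ) := by
  have hlow : ∀ d, d ≤ b → ∀ N, EA K (![2, 3, b, b + 1] : Fin 4 → ℕ) d N := by
    intro d hd N
    rcases Nat.lt_or_ge d b with h | h
    · exact low h_RGA h_KNW K b hb d h N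
    · have hd' : d = b := le_antisymm hd h
      subst hd'
      exact mid h_RGB h_KNW K d hb (h_TBB K d hb) N
  have hm := mono (x := b) (y := b + 1) hb (by omega)
  have h2 := two (x := b) (y := b + 1) hb (by omega)
  have hS := (S34 b (b + 1) hb (by omega)).2
  set a : Fin 4 → ℕ := ![2, 3, b, b + 1] with ha
  intro d N f hf W hW1 hW2 hN
  by_cases hd : d ≤ b
  · exact hlow d hd N f hf W hW1 hW2 hN
  · obtain ⟨_, v2, v3⟩ := h_VTW K 4 f a hf hm h2 d W hW1 hW2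
    by_cases hds : S a 4 ≤ d
    · exact v2 hds
    · obtain ⟨d', hd'⟩ : ∃ d', d + d' + 1 = S a 4 := ⟨S a 4 - 1 - d, by omega⟩
      obtain ⟨w1, w2, _, _⟩ := p_DUA K 4 f a hf hm d d' hd' W hW1 hW2
      exact v3 d' hd' (hlow d' (by omega) (Module.finrank K (Rd K 4 2)) f hf _ w1 w2
        (Nat.le_add_left _ _))

end TBC_

open TBC_

theorem p_TBC (h_TBB : T_TBB.{u}) (h_BIG : T_BIG.{u}) (h_BGE : T_BGE.{u}) (h_RGA : T_RGA.{u})
    (h_RGB : T_RGB.{u}) (h_KNW : T_KNW.{u}) (h_VTW : T_VTW.{u}) : T_TBC.{u} := by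
  intro K _ _ b c hb hbc
  rcases Nat.lt_or_ge c (b + 2) with h | h
  · rcases Nat.lt_or_ge b c with h' | h'
    · have hc : c = b + 1 := by omega
      subst hc
      exact one h_TBB h_RGA h_RGB h_KNW h_VTW K b hb
    · have hc : c = b := le_antisymm h' hbc
      subst hc
      exact h_TBB K c hb
  · refine SML_.last h_BIG h_BGE K 3 _ (mono hb hbc) (two hb hbc) ?_ ?_
    · rw [(S34 b c hb hbc).1]
      exact h
    · exact three h_KNW K b c hb hbc

end Pool.Agent.EGY
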