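import Pool.Agent.EGX.All
import Pool.Agent.EGY.P_HF3
import Pool.Agent.EGY.P_KPR
import Pool.Agent.EGY.P_KRD
import Pool.Agent.EGY.P_LX3
import Pool.Agent.EGY.P_MID
import Pool.Agent.EGY.P_MLC
import Pool.Agent.EGY.P_MLN
import Pool.Agent.EGY.P_SM5
import Pool.Agent.EGY.P_TBB
import Pool.Agent.EGY.P_TBC
import Pool.Agent.EGY.Fin

set_option autoImplicit false
open MvPolynomial hiding R

/-!
# Project EGY: all targets together
-/

namespace Pool.Agent.EGY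

open Pool.Agent.EGU Pool.Agent.EGS Pool.Agent.EGT Pool.Agent.EGX

universe u

theorem a_KRD : T_KRD.{u} := p_KRD p_MLN p_MLC
theorem a_KPR : T_KPR.{u} := p_KPR p_PRL a_TAG a_CMB
theorem a_LX3 : T_LX3 := p_LX3 a_CLT
theorem a_MID : T_MID.{u} := p_MID a_KRD a_KPR a_LX3 p_HF3 a_KNW p_VTW
theorem a_TBB : T_TBB.{u} := p_TBB a_MID a_RGA a_RGB a_KNW p_VTW
theorem a_TBC : T_TBC.{u} := p_TBC a_TBB a_BIG a_BGE a_RGA a_RGB a_KNW p_VTW
theorem a_SM5 : T_SM5.{u} := p_SM5 a_BIG a_BGE a_KNW a_QBB a_TBC p_VTW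

end Pool.Agent.EGY
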