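import Pool.Agent.EGX.Targets

set_option autoImplicit false
open MvPolynomial hiding R

/-!
# Project EGY (MP_e5dae2_al): products of `k` linear forms, the degrees `(2, 3, b, c)`

If `(J : W)` contains a product of `k` linear forms, then the growth of `W` is at least the one of
lex segments for the degrees `k, a_2, ..., a_n` (sorted), in degree `d + k - a_1`, for every `k`.
This gives the Eisenbud-Green-Harris conjecture for `(2, 3, b, c)`.

Everything proved in `Pool/Agent/EGU`, `EGS`, `EGT`, `EGX` may be used (all targets of EGS, EGT, EGX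
are proved; see `Pool/Agent/EGX/All.lean` for the list). Every target has its proof in the
docstring. A job proves `theorem Pool.Agent.EGY.p_XXX (h1 : T_A) ... : T_XXX`.
-/

namespace Pool.Agent.EGY

open Pool.Agent.EGU Pool.Agent.EGS Pool.Agent.EGT Pool.Agent.EGX

universe u

noncomputable section

/-! ## A. Products of linear forms in a subspace -/

/-- The multilinear form `β_t = ∑_φ b_{φ t} ∏_i X_{i, φ i}` in the variables `X_{i, j}`, `i < k`,
`j < p`. -/
def mlf {K : Type u} [Field K] {k p c : ℕ} (b : (Fin k → Fin p) → Fin c → K) (t : Fin c) :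
    MvPolynomial (Fin k × Fin p) K :=
  ∑ φ : Fin k → Fin p, MvPolynomial.C (b φ t) * ∏ i, MvPolynomial.X (i, φ i)

/-- MLN. Nullstellensatz. PROOF. As T_BLN (see `Pool/Agent/EGS/P_BLN.lean`): at a common zero `x` of
the `β_t` some `x i` is zero, so every `∏_i X_{i, φ i}` vanishes at `x`; it is in the radical of
`(β_t)`; take a common exponent. -/
def T_MLN : Prop := ∀ (K : Type u) [Field K] [IsAlgClosed K] (k p c : ℕ)
  (b : (Fin k → Fin p) → Fin c → K),
  (∀ x : Fin k → Fin p → K, (∀ t, ∑ φ : Fin k → Fin p, b φ t * ∏ i, x i (φ i) = 0) →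
    ∃ i, x i = 0) →
  ∃ N : ℕ, ∀ φ : Fin k → Fin p,
    (∏ i, MvPolynomial.X (i, φ i) : MvPolynomial (Fin k × Fin p) K) ^ N ∈
      Ideal.span (Set.range (mlf b))

/-- MLC. Counting by the transcendence degree. PROOF. As T_BLC (see `Pool/Agent/EGS/P_BLC.lean`),
with `k` groups of `p` variables. The multidegree: the weights `(i, j) ↦ e_i` in `Fin k → ℕ` (or
`Fin k →₀ ℕ`); `β_t` has multidegree `(1, ..., 1)`. Let `T_j` be the span of the monomials of
multidegree `(j, ..., j)`. For `j ≥ j0 = N p + 1`: `T_j ≤ ∑_t β_t T_{j-1}`, as a monomial of `T_j`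
has in every group `i` a variable `X_{i, φ i}` with exponent `≥ N`, so it is divisible by
`(∏_i X_{i, φ i})^N`, it is in the ideal, `= ∑ h_t β_t`, and one may take components. So the ring
`⊕ T_j` is a finite module over `K[β_1, ..., β_c]`, and all its elements are integral over
`K[β_1, ..., β_c]`. The `k (p - 1) + 1` elements `∏_i X_{i, 0}` and
`X_{i, j} ∏_{i' ≠ i} X_{i', 0}`, `1 ≤ j < p`, are algebraically independent (dehomogenize, or: their
quotients by the first one are `X_{i, j} / X_{i, 0}`). So `k (p - 1) + 1 ≤ c`. (Another way: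
compare the dimensions, `(t + 1)^(k (p - 1)) ≤ dim T_{p t} ≤ D (p t + 1)^(c - 1)`.) -/
def T_MLC : Prop := ∀ (K : Type u) [Field K] (k p c N : ℕ) (b : (Fin k → Fin p) → Fin c → K),
  1 ≤ p → (∀ φ : Fin k → Fin p,
    (∏ i, MvPolynomial.X (i, φ i) : MvPolynomial (Fin k × Fin p) K) ^ N ∈
      Ideal.span (Set.range (mlf b))) →
  k * (p - 1) + 1 ≤ c

/-- KRD. A product of `k` linear forms in a subspace of small codimension. PROOF. As T_PRD of EGS
(see `Pool/Agent/EGS/P_PRD.lean`). `c = dim R_k - dim Q ≤ k n`. Choose `c` linear functionals `λ_t`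
on the polynomial ring whose common kernel in `R_k` is `Q`. `b φ t = λ_t (∏_i X_{φ i})`. If for all
`x` with `∑_φ b φ t ∏_i x i (φ i) = 0` for all `t` some `x i` is zero, then T_MLN and T_MLC
(`p = n + 1`) give `k n + 1 ≤ c`, a contradiction. So there is such an `x` with all `x i ≠ 0`; let
`L i = ∑_j x_{i j} X_j`: `∏ L i = ∑_φ ∏_i x i (φ i) ∏_i X_{φ i}`, so `λ_t (∏ L i) = 0`. -/
def T_KRD : Prop := ∀ (K : Type u) [Field K] [IsAlgClosed K] (n k : ℕ)
  (Q : Submodule K (R K (n + 1))), Q ≤ Rd K (n + 1) k →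
  Module.finrank K (Rd K (n + 1) k) ≤ Module.finrank K Q + k * n →
  ∃ L : Fin k → R K (n + 1), (∀ i, L i ∈ Rd K (n + 1) 1) ∧ (∀ i, L i ≠ 0) ∧ ∏ i, L i ∈ Q

/-! ## B. Growth of spaces killed by a product of `k` linear forms -/

/-- KPR. PROOF. T_PRL gives `U j`, `κ j`, `u j`, `j < k`; `U j` has degree `d + j` and is killed by
some `L x ≠ 0`. (1) `d + j + 1 < a 0`: `J_{d+j+1} = 0` (all `a i ≥ a 0`), so `L x * w = 0`,
`U j = 0` and `κ j = 0`; and `D + j + 1 < k = b i`. (2) Otherwise `d' = d + j - (a 0 - 1)`, so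
`d' + (b i - 1) = D + j`, and T_TAG (with `N = dim R_2`) gives `Sh (a ∘ succ) d' (κ j) (u j)`. T_CMB
for `b`, `i`; `Sh` is monotone in the last argument. (Compare `Pool/Agent/EGX/P_SPM.lean`.) -/
def T_KPR : Prop := ∀ (K : Type u) [Field K] [Infinite K] (n : ℕ) (a : Fin (n + 1) → ℕ),
  Monotone a → (∀ i, 2 ≤ a i) → EG K (a ∘ Fin.succ) → ∀ f : Fin (n + 1) → R K (n + 1), CI f a →
  ∀ (k : ℕ) (L : Fin k → R K (n + 1)), 1 ≤ k → (∀ j, L j ∈ Rd K (n + 1) 1) → (∀ j, L j ≠ 0) →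
  ∀ (b : Fin (n + 1) → ℕ) (i : Fin (n + 1)), Monotone b → b i = k →
  (∀ j, b (i.succAbove j) = a j.succ) → ∀ d D : ℕ, D + a 0 = d + k →
  ∀ W : Submodule K (R K (n + 1)), Jd f d ≤ W → W ≤ Rd K (n + 1) d →
  (∀ w ∈ W, (∏ j, L j) * w ∈ J f) →
  Sh b D (Module.finrank K W - Module.finrank K (Jd f d))
    (Module.finrank K (up f d W) - Module.finrank K (Jd f (d + 1)))

/-! ## C. The degrees `(2, 3, b, b)` -/

/-- LX3. Lex segments of `(3, b, b, b)` in degree `2 b - 2` and of `(2, 3, b, b)` in degree `b`.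
PROOF. Write monomials as `(x_0, x_1, y)`, `y = (x_2, x_3)`. Let `F_j`, `j ≤ 2`, be the set of
the elements `(2, b - 1 - j, y)` of `Std ![3, b, b, b] (2 b - 2)`: `y_0 + y_1 = b - 3 + j`, all
such `y` have entries `< b`, so `#F_j = b - 2 + j`; `F = F_0 ∪ F_1 ∪ F_2` is an initial segment
with `3 b - 3` elements (every other element of `Std` has a smaller `x_0`, or `x_0 = 2` and a
smaller `x_1`). (1) Let `M` be an initial segment with `v ≤ 3 b - 3` elements and a shadow of at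
most `u` elements; `M ⊆ F` (otherwise `F ⊆ M` and `#M > #F`; T_SEGA). The map
`(2, b - 1 - j, y) ↦ (1, 2 - j, y)` is an injection of `F` into `Std ![2, 3, b, b] b`. Let `M'` be
the image of `M`. An element of the shadow of `M'` is `(1, 2 - j, z)` (`x_0 = 2` is not standard,
`x_1 = 3` is not standard), where `z = y + e_i` with `(1, 2 - j, y) ∈ M'`, or
`(1, 2 - j - 1, z) ∈ M'` (so `j ≤ 1`); and then `(2, b - 1 - j, z)` is in the shadow of `M`. So the
shadow of `M'` has at most `u` elements, and T_CLT (with T_SEGA for the initial segment of size `v`)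
gives `Sh ![2, 3, b, b] b v u`. (2) For `v ≤ 3 b - 3` let `M` be the initial segment (contained in
`F`) of `Std ![3, b, b, b] (2 b - 2)` with `v` elements; its shadow consists of elements
`(2, b - 1 - j, z)`, `j ≤ 2`, `z_0 + z_1 = b - 2 + j`. `M` contains `F_i` for `i < j0`,
`m ≥ 1` elements of `F_{j0}`, and nothing else (`v ≥ 1`). The shadow has at most `b - 1`
elements with `j = 0` and at most `b` with `j = 1`. `j0 = 0`: at most `m + 1` elements (with
`x_1 = b - 1`: the elements of `M` are `y = (b-3, 0), ..., (b-2-m, m-1)`). `j0 = 1`: at most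
`(b - 1) + (m + 1)`, `v = b - 2 + m`. `j0 = 2`: `y = (b-1, 0), (b-2, 1), ...`, the elements `z` are
`(b-1, 1), ..., (b-m, m)` (`(b, 0)` is not standard; these are all the possible ones), at most `m`
elements: at most `(b - 1) + b + m`, `v = (b - 2) + (b - 1) + m`. So at most `v + 2` elements in
all cases; now use (1). (3) An initial segment with at least `3 b - 3` elements contains `F`, and
the shadow of `F` contains the elements `(2, b - 1 - j, z)` with `z_0 + z_1 = b - 2 + j`, `j ≤ 2`,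
`z_0, z_1 < b`, of which there are `(b - 1) + b + (b - 1) = 3 b - 2`. -/
def T_LX3 : Prop := ∀ b : ℕ, 3 ≤ b →
  (∀ v u, v ≤ 3 * b - 3 → Sh (![3, b, b, b] : Fin 4 → ℕ) (2 * b - 2) v u →
    Sh (![2, 3, b, b] : Fin 4 → ℕ) b v u) ∧
  (∀ v, v ≤ 3 * b - 3 → Sh (![2, 3, b, b] : Fin 4 → ℕ) b v (v + 2)) ∧
  (∀ v u, 3 * b - 3 ≤ v → Sh (![3, b, b, b] : Fin 4 → ℕ) (2 * b - 2) v u → 3 * b - 2 ≤ u)

/-- HF3. `#Std ![2, 3, b, b] b = #Std ![2, 3, b, b] (b + 1) = 6 b - 5`. PROOF. The second number is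
equal to the first by T_STD (symmetry, `S = 2 b + 1`). For the first count the elements
`(x_0, x_1, y)`: `y_0 + y_1 = b - x_0 - x_1`, both `< b`: `b - x_0 - x_1 + 1` elements, except for
`x_0 = x_1 = 0`, where there are `b - 1`. The sum over `x_0 ≤ 1`, `x_1 ≤ 2` is
`(b - 2) + (b - 1) + b + (b - 1) + b + (b - 1)`. -/
def T_HF3 : Prop := ∀ b : ℕ, 3 ≤ b → (Std (![2, 3, b, b] : Fin 4 → ℕ) b).card + 5 = 6 * b ∧
  (Std (![2, 3, b, b] : Fin 4 → ℕ) (b + 1)).card + 5 = 6 * b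

/-- MID. The middle degree. PROOF. `S a 4 = 2 b + 1`. `v = dim W - dim J_b`,
`u = dim (up W) - dim J_{b+1}`, `h = 6 b - 5`; `v ≤ h`, `u ≤ h` (`a_hf`, T_HF3). The linked space
`W' = orth f b (up f b W)` (T_DUA, `d = d' = b`) has `v' = h - u`, `u' ≤ h - v`. (*) If `u ≤ 3 b`
then `orth f b W = orth f b (up f b W)` has dimension `dim R_b - u` (T_SOK or T_SOC:
`(J : W)_b = (J : R_1 W)_b`, as `2 b < 2 b + 1`), so T_KRD (`k = b`, `n = 3`) and T_KPR
(`a ∘ succ = ![3, b, b]`, EGH for it: T_KNW, three variables; `b := ![3, b, b, b]`, `i = 1`,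
`D = 2 b - 2`) give `Sh ![3, b, b, b] (2 b - 2) v u`. (A) `u ≤ 3 b`, `v ≤ 3 b - 3`: T_LX3 (1). (B)
`u' ≤ 3 b`, `v' ≤ 3 b - 3`: the same for `W'`, so `GoodA a f b W'`, and T_VTW (third part). (C)
`v ≤ 3 b - 6` and `u ≥ 3 b + 1`: T_LX3 (2), `Sh` is monotone in the last argument. (D) `u ≤ 3 b`
and `v ≥ 3 b - 2`: by (*) and T_LX3 (3) `u ≥ 3 b - 2`, so `v' ≤ 3 b - 3`; and `u' ≤ h - v ≤ 3 b - 3`:
this is (B). (E) `u ≥ 3 b + 1`, `v ≥ 3 b - 5`: `v' ≤ 3 b - 6`, `u' ≤ 3 b`: (B). -/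
def T_MID : Prop := ∀ (K : Type u) [Field K] [IsAlgClosed K] (b : ℕ), 3 ≤ b → ∀ N,
  EA K (![2, 3, b, b] : Fin 4 → ℕ) b N

/-- TBB. The degrees `(2, 3, b, b)`. PROOF. As T_QBB (see `Pool/Agent/EGX/P_QBB.lean`), induction on
`b`. `d + 1 < b`: T_RGA with `r = 2`. `d + 1 = b`, `b ≥ 4`: T_RGB with `r = 2` and then `r = 3`
reduces to `(2, 3, b-1, b-1)` in degree `b - 1`: induction. `b = 3`, `d = 2`: T_RGB with `r = 1`
reduces to `(2, 2, 3, 3)` in degree `2`: T_KNW (`S = 6`). `d = b`: T_MID. `d ≥ b + 1`: duality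
(T_VTW, T_DUA), `d' = 2 b - d ≤ b - 1`; `d ≥ 2 b + 1`: T_VTW. -/
def T_TBB : Prop := ∀ (K : Type u) [Field K] [IsAlgClosed K] (b : ℕ), 3 ≤ b →
  EG K (![2, 3, b, b] : Fin 4 → ℕ)

/-- TBC. The degrees `(2, 3, b, c)`, `3 ≤ b ≤ c`. PROOF. `c = b`: T_TBB. `c ≥ b + 2 = S a 3`: T_BIG
(`S a 3 < c`) or T_BGE (`S a 3 = c`), with EGH for three variables (T_KNW). `c = b + 1`:
`S a 4 = 2 b + 2`. `d + 1 < c`: T_RGA with `r = 3`. `d + 1 = c`: T_RGB with `r = 3` reduces to
`(2, 3, b, b)`: T_TBB. `d ≥ c`: duality, `d' = 2 b + 1 - d ≤ b`, or T_VTW. -/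
def T_TBC : Prop := ∀ (K : Type u) [Field K] [IsAlgClosed K] (b c : ℕ), 3 ≤ b → b ≤ c →
  EG K (![2, 3, b, c] : Fin 4 → ℕ)

/-! ## D. The theorem -/

/-- Small sequences, with `a_1 + a_2 ≤ 5` for `m = 4`. -/
def Small5 {n : ℕ} (a : Fin n → ℕ) : Prop :=
  ∃ m, m ≤ n ∧ (m ≤ 3 ∨ S a m ≤ 6 ∨
    (m = 4 ∧ ∀ i j : Fin n, (i : ℕ) = 0 → (j : ℕ) = 1 → a i + a j ≤ 5)) ∧
    ∀ (j : ℕ) (h : j < n), m ≤ j → S a j ≤ a ⟨j, h⟩

/-- SM5. PROOF. As T_SML (see `Pool/Agent/EGX/P_SML.lean`), with T_TBC for `(2, 3, b, c)`. -/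
def T_SM5 : Prop := ∀ (K : Type u) [Field K] [IsAlgClosed K] (n : ℕ) (a : Fin n → ℕ), Monotone a →
  (∀ i, 2 ≤ a i) → Small5 a → EG K a

end

end Pool.Agent.EGY
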